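import Mathlib

set_option autoImplicit false

namespace Pool.Agent.CycApx

open Finset

/-- integer vectors with positive part of sum `≤ k` and negative part of sum `≤ l` -/
noncomputable def W (d k l : ℕ) : Finset (Fin d → ℤ) :=
  (Fintype.piFinset (fun _ : Fin d => Finset.Icc (-(l:ℤ)) (k:ℤ))).filter
    (fun w => ∑ i, max (w i) 0 ≤ (k:ℤ) ∧ ∑ i, max (-w i) 0 ≤ (l:ℤ))

lemma mem_W {d k l : ℕ} (w : Fin d → ℤ) :
    w ∈ W d k l ↔ ∑ i, max (w i) 0 ≤ (k:ℤ) ∧ ∑ i, max (-w i) 0 ≤ (l:ℤ) := by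
  rw [W, mem_filter, Fintype.mem_piFinset]
  refine ⟨fun h => h.2, fun h => ⟨fun i => ?_, h⟩⟩
  have h1 : max (w i) 0 ≤ ∑ i, max (w i) 0 :=
    single_le_sum (f := fun i => max (w i) 0) (fun j _ => le_max_right _ _) (mem_univ i)
  have h2 : max (-w i) 0 ≤ ∑ i, max (-w i) 0 :=
    single_le_sum (f := fun i => max (-w i) 0) (fun j _ => le_max_right _ _) (mem_univ i)
  rw [mem_Icc]
  have h3 := le_max_left (w i) 0
  have h4 := le_max_left (-w i) 0
  omega

lemma card_W_zero (k l : ℕ) : (W 0 k l).card = 1 := by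
  have : W 0 k l = {default} := by
    ext w
    rw [mem_W]
    simp [Subsingleton.elim w default]
  rw [this, card_singleton]

lemma card_fiber (d k l : ℕ) (x : ℤ) (hx : x ∈ Finset.Icc (-(l:ℤ)) (k:ℤ)) :
    ((W (d+1) k l).filter (fun w => w 0 = x)).card
      = (W d ((k:ℤ) - max x 0).toNat ((l:ℤ) - max (-x) 0).toNat).card := by
  rw [mem_Icc] at hx
  have e1 : (((k:ℤ) - max x 0).toNat : ℤ) = (k:ℤ) - max x 0 := by
    rw [Int.toNat_of_nonneg]
    rcases max_cases x 0 with h | h <;> omega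
  have e2 : (((l:ℤ) - max (-x) 0).toNat : ℤ) = (l:ℤ) - max (-x) 0 := by
    rw [Int.toNat_of_nonneg]
    rcases max_cases (-x) 0 with h | h <;> omega
  refine Finset.card_nbij' (fun w => Fin.tail w) (fun w => (Fin.cons x w : Fin (d+1) → ℤ)) ?_ ?_ ?_ ?_
  · intro w hw
    simp only [coe_filter, Set.mem_ofPred_eq] at hw
    obtain ⟨h1, h2⟩ := hw
    rw [mem_coe, mem_W, e1, e2]
    rw [mem_W, Fin.sum_univ_succ, Fin.sum_univ_succ, h2] at h1
    simp only [Fin.tail]
    constructor
    · linarith [h1.1]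
    · linarith [h1.2]
  · intro w hw
    rw [mem_coe, mem_W, e1, e2] at hw
    simp only [coe_filter, Set.mem_ofPred_eq]
    rw [mem_W, Fin.sum_univ_succ, Fin.sum_univ_succ]
    simp only [Fin.cons_zero, Fin.cons_succ, and_true]
    constructor
    · linarith [hw.1]
    · linarith [hw.2]
  · intro w hw
    simp only [coe_filter, Set.mem_ofPred_eq] at hw
    rw [← hw.2]
    exact Fin.cons_self_tail w
  · intro w _
    simp

lemma sum_Icc_split (k l : ℕ) (g : ℤ → ℕ) :
    ∑ x ∈ Finset.Icc (-(l:ℤ)) (k:ℤ), g x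
      = ∑ x ∈ range (k+1), g x + ∑ x ∈ range l, g (-((x:ℤ)+1)) := by
  classical
  have hd : Disjoint ((range (k+1)).image (fun x : ℕ => (x:ℤ)))
      ((range l).image (fun x : ℕ => -((x:ℤ)+1))) := by
    rw [disjoint_left]
    intro a ha hb
    rw [mem_image] at ha hb
    obtain ⟨x, _, hx⟩ := ha
    obtain ⟨y, _, hy⟩ := hb
    omega
  have hu : Finset.Icc (-(l:ℤ)) (k:ℤ) = (range (k+1)).image (fun x : ℕ => (x:ℤ)) ∪
      (range l).image (fun x : ℕ => -((x:ℤ)+1)) := by
    ext a
    rw [mem_union, mem_image, mem_image, mem_Icc]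
    constructor
    · intro h
      rcases le_or_gt 0 a with h0 | h0
      · exact Or.inl ⟨a.toNat, by rw [mem_range]; omega, by omega⟩
      · exact Or.inr ⟨(-a-1).toNat, by rw [mem_range]; omega, by omega⟩
    · rintro (⟨x, hx, rfl⟩ | ⟨x, hx, rfl⟩)
      · rw [mem_range] at hx; omega
      · rw [mem_range] at hx; omega
  rw [hu, sum_union hd, sum_image (fun a _ b _ h => by simpa using h),
    sum_image (fun a _ b _ h => by simpa using h)]

lemma card_W_succ (d k l : ℕ) : (W (d+1) k l).card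
    = ∑ x ∈ range (k+1), (W d x l).card + ∑ x ∈ range l, (W d k x).card := by
  classical
  have h1 : (W (d+1) k l).card = ∑ x ∈ Finset.Icc (-(l:ℤ)) (k:ℤ),
      ((W (d+1) k l).filter (fun w => w 0 = x)).card := by
    apply Finset.card_eq_sum_card_fiberwise
    intro w hw
    rw [mem_coe, W, mem_filter, Fintype.mem_piFinset] at hw
    exact hw.1 0
  rw [h1, sum_congr rfl (fun x hx => card_fiber d k l x hx), sum_Icc_split k l
    (fun x => (W d ((k:ℤ) - max x 0).toNat ((l:ℤ) - max (-x) 0).toNat).card)]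
  congr 1
  · rw [← sum_range_reflect]
    refine sum_congr rfl (fun x hx => ?_)
    have hx' := mem_range.1 hx
    have m1 : max ((((k + 1 - 1 - x : ℕ)) : ℤ)) 0 = (((k + 1 - 1 - x : ℕ)) : ℤ) :=
      max_eq_left (by omega)
    have m2 : max (-(((k + 1 - 1 - x : ℕ)) : ℤ)) 0 = 0 := max_eq_right (by omega)
    rw [m1, m2]
    congr 2
    omega
  · rw [← sum_range_reflect]
    refine sum_congr rfl (fun x hx => ?_)
    have hx' := mem_range.1 hx
    have m1 : max (-((((l - 1 - x : ℕ)) : ℤ) + 1)) 0 = 0 := max_eq_right (by omega)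
    have m2 : max (- -((((l - 1 - x : ℕ)) : ℤ) + 1)) 0 = (((l - 1 - x : ℕ)) : ℤ) + 1 := by
      rw [neg_neg]; exact max_eq_left (by omega)
    rw [m1, m2]
    congr 2
    omega

/-- the volume polynomial -/
noncomputable def V (d : ℕ) (x y : ℝ) : ℝ :=
  ∑ j ∈ range (d+1), (d.choose j : ℝ) / (j.factorial * (d-j).factorial) * (x^j * y^(d-j))

lemma V_mono (d : ℕ) {x y x' y' : ℝ} (hx : 0 ≤ x) (hy : 0 ≤ y) (hxx : x ≤ x') (hyy : y ≤ y') :
    V d x y ≤ V d x' y' := by
  refine sum_le_sum (fun j _ => mul_le_mul_of_nonneg_left ?_ (by positivity))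
  have := hx.trans hxx
  exact mul_le_mul (pow_le_pow_left₀ hx hxx _) (pow_le_pow_left₀ hy hyy _) (by positivity)
    (by positivity)

lemma V_succ (d : ℕ) (x y : ℝ) : V (d+1) x y
    = ∑ j ∈ range (d+1), (d.choose j : ℝ) / (j.factorial * (d-j).factorial) *
        (x^(j+1)/((j+1 : ℕ) : ℝ) * y^(d-j)) +
      ∑ j ∈ range (d+1), (d.choose j : ℝ) / (j.factorial * (d-j).factorial) *
        (x^j * (y^(d-j+1)/((d-j+1 : ℕ) : ℝ))) := by
  -- both sides as sums over `range (d+2)`
  have h1 : ∑ j ∈ range (d+1), (d.choose j : ℝ) / (j.factorial * (d-j).factorial) *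
        (x^(j+1)/((j+1 : ℕ) : ℝ) * y^(d-j))
      = ∑ i ∈ range (d+2), (if i = 0 then 0 else (d.choose (i-1) : ℝ)) /
          (i.factorial * (d+1-i).factorial) * (x^i * y^(d+1-i)) := by
    rw [sum_range_succ' _ (d+1)]
    simp only [if_true, zero_div, zero_mul, add_zero]
    refine sum_congr rfl (fun j hj => ?_)
    have hj' := mem_range.1 hj
    rw [if_neg (by omega), show j + 1 - 1 = j by omega, show d + 1 - (j+1) = d - j by omega,
      Nat.factorial_succ]
    push_cast
    have : ((j:ℝ) + 1) ≠ 0 := by positivity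
    have : (j.factorial : ℝ) ≠ 0 := by positivity
    have : ((d-j).factorial : ℝ) ≠ 0 := by positivity
    field_simp
  have h2 : ∑ j ∈ range (d+1), (d.choose j : ℝ) / (j.factorial * (d-j).factorial) *
        (x^j * (y^(d-j+1)/((d-j+1 : ℕ) : ℝ)))
      = ∑ i ∈ range (d+2), (d.choose i : ℝ) /
          (i.factorial * (d+1-i).factorial) * (x^i * y^(d+1-i)) := by
    rw [sum_range_succ _ (d+1), Nat.choose_succ_self]
    simp only [Nat.cast_zero, zero_div, zero_mul, add_zero]
    refine sum_congr rfl (fun j hj => ?_)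
    have hj' := mem_range.1 hj
    rw [show d + 1 - j = (d - j) + 1 by omega, Nat.factorial_succ]
    push_cast
    have : (((d-j : ℕ):ℝ) + 1) ≠ 0 := by positivity
    have : (j.factorial : ℝ) ≠ 0 := by positivity
    have : ((d-j).factorial : ℝ) ≠ 0 := by positivity
    field_simp
  rw [h1, h2, ← sum_add_distrib, V]
  refine sum_congr rfl (fun i _ => ?_)
  rw [← add_mul, ← add_div]
  congr 2
  rcases i with _ | i
  · simp
  · rw [if_neg (by omega), Nat.choose_succ_succ]
    push_cast
    rfl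

lemma V_diag (d : ℕ) (x : ℝ) : V d x x = ((2*d).choose d : ℝ) / d.factorial * x^d := by
  have h1 : V d x x = ∑ j ∈ range (d+1), ((d.choose j : ℝ)^2) / d.factorial * x^d := by
    refine sum_congr rfl (fun j hj => ?_)
    have hj' : j ≤ d := by have := mem_range.1 hj; omega
    have e1 : x^j * x^(d-j) = x^d := by rw [← pow_add]; congr 1; omega
    have e2 : (d.choose j : ℝ) * (j.factorial * (d-j).factorial) = d.factorial := by
      have := Nat.choose_mul_factorial_mul_factorial hj'
      rw [← this]; push_cast; ring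
    have n1 : (j.factorial : ℝ) ≠ 0 := by positivity
    have n2 : ((d-j).factorial : ℝ) ≠ 0 := by positivity
    have n3 : (d.choose j : ℝ) ≠ 0 := by
      have := Nat.choose_pos hj'
      positivity
    rw [e1, ← e2]
    field_simp
  rw [h1, ← sum_mul, ← sum_div]
  congr 2
  have := Nat.sum_range_choose_sq d
  rw [← this]
  push_cast
  rfl

lemma pow_succ_ge {t : ℝ} (ht : 0 ≤ t) (j : ℕ) : t^(j+1) + ((j+1 : ℕ):ℝ) * t^j ≤ (t+1)^(j+1) := by
  induction j with
  | zero => simp
  | succ j ih =>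
    have h1 : (t+1)^(j+2) = (t+1) * (t+1)^(j+1) := by ring
    have h2 : (t+1) * (t^(j+1) + ((j+1 : ℕ):ℝ) * t^j) ≤ (t+1) * (t+1)^(j+1) :=
      mul_le_mul_of_nonneg_left ih (by linarith)
    have h3 : 0 ≤ ((j+1 : ℕ):ℝ) * t^j := by positivity
    rw [show j + 1 + 1 = j + 2 by ring, h1]
    refine le_trans ?_ h2
    have h4 : (t+1) * (t^(j+1) + ((j+1 : ℕ):ℝ) * t^j)
        = t^(j+2) + ((j+2 : ℕ):ℝ) * t^(j+1) + ((j+1 : ℕ):ℝ) * t^j := by
      push_cast; ring
    rw [h4]
    linarith

lemma sum_pow_le (a : ℝ) (ha : 0 ≤ a) (j n : ℕ) :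
    ∑ x ∈ range n, ((x:ℝ) + a)^j ≤ ((n:ℝ) + a)^(j+1) / ((j+1 : ℕ):ℝ) := by
  induction n with
  | zero => simp; positivity
  | succ n ih =>
    rw [sum_range_succ]
    have h1 := pow_succ_ge (t := (n:ℝ) + a) (by positivity) j
    have hj : (0:ℝ) < ((j+1 : ℕ):ℝ) := by positivity
    calc ∑ x ∈ range n, ((x:ℝ) + a)^j + ((n:ℝ) + a)^j
        ≤ ((n:ℝ) + a)^(j+1) / ((j+1 : ℕ):ℝ) + ((n:ℝ) + a)^j := by linarith
      _ = (((n:ℝ) + a)^(j+1) + ((j+1 : ℕ):ℝ) * ((n:ℝ) + a)^j) / ((j+1 : ℕ):ℝ) := by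
          field_simp
      _ ≤ ((n:ℝ) + a + 1)^(j+1) / ((j+1 : ℕ):ℝ) := by
          apply div_le_div_of_nonneg_right h1 hj.le
      _ = _ := by push_cast; ring_nf

lemma card_W_le (d : ℕ) : ∀ k l : ℕ, ((W d k l).card : ℝ) ≤ V d ((k:ℝ) + d) ((l:ℝ) + d) := by
  induction d with
  | zero => intro k l; rw [card_W_zero]; simp [V]
  | succ d ih =>
    intro k l
    rw [card_W_succ, V_succ]
    push_cast
    refine add_le_add ?_ ?_
    · calc ∑ x ∈ range (k+1), ((W d x l).card : ℝ)
          ≤ ∑ x ∈ range (k+1), V d ((x:ℝ) + d) ((l:ℝ) + d) := sum_le_sum (fun x _ => ih x l)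
        _ = ∑ j ∈ range (d+1), (d.choose j : ℝ) / (j.factorial * (d-j).factorial) *
              ((∑ x ∈ range (k+1), ((x:ℝ) + d)^j) * ((l:ℝ) + d)^(d-j)) := by
            simp only [V]
            rw [sum_comm]
            refine sum_congr rfl (fun j _ => ?_)
            rw [sum_mul, mul_sum]
        _ ≤ _ := by
            refine sum_le_sum (fun j _ => mul_le_mul_of_nonneg_left ?_ (by positivity))
            apply mul_le_mul _ _ (by positivity) (by positivity)
            · refine (sum_pow_le d (by positivity) j (k+1)).trans (le_of_eq ?_)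
              push_cast; ring_nf
            · apply pow_le_pow_left₀ (by positivity)
              linarith
    · calc ∑ x ∈ range l, ((W d k x).card : ℝ)
          ≤ ∑ x ∈ range l, V d ((k:ℝ) + d) ((x:ℝ) + d) := sum_le_sum (fun x _ => ih k x)
        _ = ∑ j ∈ range (d+1), (d.choose j : ℝ) / (j.factorial * (d-j).factorial) *
              (((k:ℝ) + d)^j * (∑ x ∈ range l, ((x:ℝ) + d)^(d-j))) := by
            simp only [V]
            rw [sum_comm]
            refine sum_congr rfl (fun j _ => ?_)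
            rw [mul_sum, mul_sum]
        _ ≤ _ := by
            refine sum_le_sum (fun j _ => mul_le_mul_of_nonneg_left ?_ (by positivity))
            apply mul_le_mul _ _ (sum_nonneg (fun x _ => by positivity)) (by positivity)
            · apply pow_le_pow_left₀ (by positivity)
              linarith
            · refine (sum_pow_le d (by positivity) (d-j) l).trans ?_
              push_cast
              apply div_le_div_of_nonneg_right _ (by positivity)
              apply pow_le_pow_left₀ (by positivity)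
              linarith

lemma pow_sub_le (m j : ℕ) : ((m:ℝ))^(j+1) ≤ (((m-1 : ℕ)):ℝ)^(j+1) + ((j+1 : ℕ):ℝ) * (m:ℝ)^j := by
  rcases Nat.eq_zero_or_pos m with rfl | hm
  · simp
    positivity
  · have hm1 : (((m-1 : ℕ)):ℝ) = (m:ℝ) - 1 := by
      rw [Nat.cast_sub hm]; simp
    have hmr : (1:ℝ) ≤ m := by exact_mod_cast hm
    have hm0 : (0:ℝ) < m := by linarith
    rw [hm1]
    have hb := one_add_mul_le_pow (a := -(1/(m:ℝ))) (by
      have : 1 / (m:ℝ) ≤ 1 := by rw [div_le_one hm0]; exact hmr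
      linarith) (j+1)
    have h2 : ((m:ℝ) - 1)^(j+1) = (1 + -(1/(m:ℝ)))^(j+1) * (m:ℝ)^(j+1) := by
      rw [← mul_pow]; congr 1; field_simp; ring
    rw [h2]
    have h3 : (1 + ((j+1 : ℕ):ℝ) * -(1/(m:ℝ))) * (m:ℝ)^(j+1)
        = (m:ℝ)^(j+1) - ((j+1 : ℕ):ℝ) * (m:ℝ)^j := by
      rw [pow_succ]; field_simp; ring
    have h4 := mul_le_mul_of_nonneg_right hb (by positivity : (0:ℝ) ≤ (m:ℝ)^(j+1))
    rw [h3] at h4
    linarith

lemma sum_pow_ge (a j n : ℕ) :
    (((n - a - 1 : ℕ)):ℝ)^(j+1) / ((j+1 : ℕ):ℝ) ≤ ∑ x ∈ range n, (((x - a : ℕ)):ℝ)^j := by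
  induction n with
  | zero => simp
  | succ n ih =>
    rw [sum_range_succ]
    have h1 := pow_sub_le (n - a) j
    have hj : (0:ℝ) < ((j+1 : ℕ):ℝ) := by positivity
    have e1 : n + 1 - a - 1 = n - a := by omega
    rw [e1]
    calc (((n - a : ℕ)):ℝ)^(j+1) / ((j+1 : ℕ):ℝ)
        ≤ ((((n - a - 1 : ℕ)):ℝ)^(j+1) + ((j+1 : ℕ):ℝ) * (((n - a : ℕ)):ℝ)^j) / ((j+1 : ℕ):ℝ) :=
          div_le_div_of_nonneg_right h1 hj.le
      _ = (((n - a - 1 : ℕ)):ℝ)^(j+1) / ((j+1 : ℕ):ℝ) + (((n - a : ℕ)):ℝ)^j := by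
          field_simp
      _ ≤ _ := by linarith

lemma card_W_ge (d : ℕ) : ∀ k l : ℕ, V d (((k - d : ℕ)):ℝ) (((l - d : ℕ)):ℝ) ≤ (W d k l).card := by
  induction d with
  | zero => intro k l; rw [card_W_zero]; simp [V]
  | succ d ih =>
    intro k l
    rw [card_W_succ, V_succ]
    push_cast
    refine add_le_add ?_ ?_
    · calc _ ≤ ∑ j ∈ range (d+1), (d.choose j : ℝ) / (j.factorial * (d-j).factorial) *
              ((∑ x ∈ range (k+1), (((x - d : ℕ)):ℝ)^j) * (((l - d : ℕ)):ℝ)^(d-j)) := by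
            refine sum_le_sum (fun j _ => mul_le_mul_of_nonneg_left ?_ (by positivity))
            apply mul_le_mul _ _ (by positivity) (sum_nonneg (fun x _ => by positivity))
            · refine le_trans ?_ (sum_pow_ge d j (k+1))
              push_cast
              apply div_le_div_of_nonneg_right _ (by positivity)
              apply pow_le_pow_left₀ (by positivity)
              exact_mod_cast (by omega : k - (d+1) ≤ k + 1 - d - 1)
            · apply pow_le_pow_left₀ (by positivity)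
              exact_mod_cast (by omega : l - (d+1) ≤ l - d)
        _ = ∑ x ∈ range (k+1), V d (((x - d : ℕ)):ℝ) (((l - d : ℕ)):ℝ) := by
            simp only [V]
            rw [sum_comm (s := range (k+1))]
            refine sum_congr rfl (fun j _ => ?_)
            rw [sum_mul, mul_sum]
        _ ≤ _ := sum_le_sum (fun x _ => ih x l)
    · calc _ ≤ ∑ j ∈ range (d+1), (d.choose j : ℝ) / (j.factorial * (d-j).factorial) *
              ((((k - d : ℕ)):ℝ)^j * (∑ x ∈ range l, (((x - d : ℕ)):ℝ)^(d-j))) := by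
            refine sum_le_sum (fun j _ => mul_le_mul_of_nonneg_left ?_ (by positivity))
            apply mul_le_mul _ _ (by positivity) (by positivity)
            · apply pow_le_pow_left₀ (by positivity)
              exact_mod_cast (by omega : k - (d+1) ≤ k - d)
            · refine le_trans ?_ (sum_pow_ge d (d-j) l)
              push_cast
              apply div_le_div_of_nonneg_right _ (by positivity)
              apply pow_le_pow_left₀ (by positivity)
              exact_mod_cast (by omega : l - (d+1) ≤ l - d - 1)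
        _ = ∑ x ∈ range l, V d (((k - d : ℕ)):ℝ) (((x - d : ℕ)):ℝ) := by
            simp only [V]
            rw [sum_comm (s := range l)]
            refine sum_congr rfl (fun j _ => ?_)
            rw [mul_sum, mul_sum]
        _ ≤ _ := sum_le_sum (fun x _ => ih k x)

end Pool.Agent.CycApx
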