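import Pool.Agent.CycApx.MainA
import Pool.Agent.CycApx.Count
import Pool.Agent.CycLat.Lower

set_option autoImplicit false

namespace Pool.Agent.CycApx

open Finset Matrix Filter Topology CycLat

lemma sx_le_iff {d : ℕ} (w : Fin d → ℤ) (k : ℕ) : sx (toR w) ≤ (k:ℝ) ↔ w ∈ W d k k := by
  rw [mem_W, sx, max_le_iff]
  have e1 : ∑ i, max (toR w i) 0 = ((∑ i, max (w i) 0 : ℤ) : ℝ) := by
    push_cast; rfl
  have e2 : ∑ i, max (-toR w i) 0 = ((∑ i, max (-w i) 0 : ℤ) : ℝ) := by
    push_cast; rfl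
  rw [e1, e2]
  constructor
  · rintro ⟨h1, h2⟩; exact ⟨by exact_mod_cast h1, by exact_mod_cast h2⟩
  · rintro ⟨h1, h2⟩; exact ⟨by exact_mod_cast h1, by exact_mod_cast h2⟩

lemma neg_mem_W {d k : ℕ} {w : Fin d → ℤ} (h : w ∈ W d k k) : -w ∈ W d k k := by
  rw [mem_W] at h ⊢
  simp only [Pi.neg_apply, neg_neg]
  exact ⟨h.2, h.1⟩

/-- a packing bound -/
lemma card_le_of_adm {d : ℕ} (n k : ℕ) (hn : 0 < n) (b : Fin d → ℤ)
    (h : Adm (sx : (Fin d → ℝ) → ℝ) n b (2 * (k:ℝ) + 1)) : (W d k k).card ≤ n := by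
  classical
  have : NeZero n := ⟨hn.ne'⟩
  have h1 : (W d k k).card ≤ (Finset.univ : Finset (ZMod n)).card := by
    refine Finset.card_le_card_of_injOn (fun w => ((∑ i, w i * b i : ℤ) : ZMod n))
      (fun w _ => by simp) ?_
    intro w hw w' hw' heq
    by_contra hne
    have hd : (n:ℤ) ∣ ∑ i, (w - w') i * b i := by
      have h2 : ((∑ i, w i * b i - ∑ i, w' i * b i : ℤ) : ZMod n) = 0 := by
        push_cast
        have := heq
        push_cast at this
        rw [this, sub_self]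
      rw [ZMod.intCast_zmod_eq_zero_iff_dvd] at h2
      rw [← sum_sub_distrib] at h2
      convert h2 using 2 with i
      simp only [Pi.sub_apply]
      ring
    have h3 := h (w - w') (sub_ne_zero.2 hne) hd
    have h4 : sx (toR (w - w')) ≤ sx (toR w) + sx (toR (-w')) := by
      have e : toR (w - w') = toR w + toR (-w') := by
        funext i
        simp [toR, sub_eq_add_neg]
      rw [e]
      exact isNorm_sx.add_le _ _
    have h5 := (sx_le_iff w k).2 (mem_coe.1 hw)
    have h6 := (sx_le_iff (-w') k).2 (neg_mem_W (mem_coe.1 hw'))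
    linarith
  rwa [Finset.card_univ, ZMod.card] at h1

/-- lower bound of Minkowski type -/
theorem crit_ge (e : ℕ) : ((2*(e+2)).choose (e+2) : ℝ) / (2^(e+2) * (e+2).factorial)
    ≤ crit (sx : (Fin (e+2) → ℝ) → ℝ) := by
  set d := e + 2 with hd
  set c : ℝ := ((2*d).choose d : ℝ) / d.factorial with hc
  have hcr := crit_nonneg (sx : (Fin d → ℝ) → ℝ)
  suffices H : c ≤ crit (sx : (Fin d → ℝ) → ℝ) * 2^d by
    have e1 : ((2*d).choose d : ℝ) / (2^d * d.factorial) = c / 2^d := by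
      rw [hc]; field_simp
    rw [e1, div_le_iff₀ (by positivity)]
    exact H
  refine le_of_forall_pos_le_add (fun δ hδ => ?_)
  set ε : ℝ := δ / 2^d with hε
  have hε0 : 0 < ε := by positivity
  obtain ⟨n0, hn0⟩ := main_apx (isNorm_sx (d := d)) ε hε0
  have key : ∀ k : ℕ, n0 + d + 1 ≤ k → c * (((k:ℝ) - d))^d
      ≤ (crit (sx : (Fin d → ℝ) → ℝ) + ε) * (2 * (k:ℝ) + 1)^d + (n0 + 1) := by
    intro k hk
    set X : ℝ := (crit (sx : (Fin d → ℝ) → ℝ) + ε) * (2 * (k:ℝ) + 1)^d with hX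
    have hX0 : 0 ≤ X := by positivity
    obtain ⟨b, hb⟩ := hn0 (n0 + ⌈X⌉₊) (by omega)
    have h1 := hb (2 * (k:ℝ) + 1) (by positivity) (by
      have := Nat.le_ceil X
      push_cast
      have : (0:ℝ) ≤ n0 := by positivity
      linarith)
    have hXpos : 0 < X := by positivity
    have h2 := card_le_of_adm (n0 + ⌈X⌉₊) k (by
      have := Nat.ceil_pos.2 hXpos
      omega) b h1
    have h3 := card_W_ge d k k
    rw [V_diag] at h3
    have h4 : (((k - d : ℕ)):ℝ) = (k:ℝ) - d := by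
      rw [Nat.cast_sub (by omega)]
    rw [h4] at h3
    have h5 : ((W d k k).card : ℝ) ≤ n0 + (⌈X⌉₊ : ℝ) := by exact_mod_cast h2
    have h6 := Nat.ceil_lt_add_one hX0
    linarith
  have h0 : Tendsto (fun k : ℕ => 1 / (k : ℝ)) atTop (𝓝 0) := tendsto_one_div_atTop_nhds_zero_nat
  have hL : Tendsto (fun k : ℕ => c * (1 - d * (1 / (k:ℝ)))^d) atTop (𝓝 (c * (1 - d * 0)^d)) :=
    (((h0.const_mul _).const_sub 1).pow d).const_mul c
  have hR : Tendsto (fun k : ℕ => (crit (sx : (Fin d → ℝ) → ℝ) + ε) * (2 + 1 / (k:ℝ))^d +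
      ((n0:ℝ) + 1) * (1 / (k:ℝ))^d) atTop
      (𝓝 ((crit (sx : (Fin d → ℝ) → ℝ) + ε) * (2 + 0)^d + ((n0:ℝ) + 1) * 0^d)) :=
    (((h0.const_add 2).pow d).const_mul _).add ((h0.pow d).const_mul _)
  have hfin := le_of_tendsto_of_tendsto hL hR (by
    filter_upwards [eventually_ge_atTop (n0 + d + 1)] with k hk
    have hk0 : (0:ℝ) < k := by
      have : 0 < k := by omega
      exact_mod_cast this
    have h1 := key k hk
    have h2 : 0 < (k:ℝ)^d := by positivity
    rw [← mul_le_mul_iff_left₀ h2]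
    have e1 : c * (1 - d * (1 / (k:ℝ)))^d * (k:ℝ)^d = c * ((k:ℝ) - d)^d := by
      rw [mul_assoc, ← mul_pow]; congr 2; field_simp
    have e2 : ((crit (sx : (Fin d → ℝ) → ℝ) + ε) * (2 + 1 / (k:ℝ))^d +
        ((n0:ℝ) + 1) * (1 / (k:ℝ))^d) * (k:ℝ)^d
        = (crit (sx : (Fin d → ℝ) → ℝ) + ε) * (2 * (k:ℝ) + 1)^d + ((n0:ℝ) + 1) := by
      have a1 : (2 + 1 / (k:ℝ))^d * (k:ℝ)^d = (2 * (k:ℝ) + 1)^d := by
        rw [← mul_pow]; congr 1; field_simp
      have a2 : (1 / (k:ℝ))^d * (k:ℝ)^d = 1 := by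
        rw [← mul_pow, one_div, inv_mul_cancel₀ hk0.ne', one_pow]
      rw [add_mul, mul_assoc, a1, mul_assoc, a2, mul_one]
    rw [e1, e2]
    exact h1)
  rw [mul_zero, sub_zero, one_pow, mul_one, add_zero, zero_pow (by omega), mul_zero, add_zero,
    add_mul] at hfin
  have e3 : ε * 2^d = δ := by rw [hε]; field_simp
  rw [e3] at hfin
  exact hfin

/-- random linear forms modulo a prime -/
lemma exists_prime_adm {d : ℕ} (p h : ℕ) [hp : Fact p.Prime] (hh : h < p)
    (hN : (W d h h).card ≤ 2 * p) :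
    ∃ b : Fin d → ℤ, Adm (sx : (Fin d → ℝ) → ℝ) p b ((h:ℝ) + 1) := by
  classical
  by_contra hcon
  push Not at hcon
  -- every form is bad
  set S := (W d h h).erase 0 with hS
  have h0W : (0 : Fin d → ℤ) ∈ W d h h := by rw [mem_W]; simp
  have hScard : S.card + 1 = (W d h h).card := by
    rw [hS, card_erase_add_one h0W]
  let Z : (Fin d → ZMod p) → (Fin d → ℤ) → Prop := fun c w => ∑ i, (w i : ZMod p) * c i = 0
  have hbad : ∀ c : Fin d → ZMod p, 2 ≤ (S.filter (fun w => Z c w)).card := by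
    intro c
    have h1 := hcon (fun i => ((c i).val : ℤ))
    rw [Adm] at h1
    push Not at h1
    obtain ⟨w, hw0, hwd, hwl⟩ := h1
    have hwW : w ∈ W d h h := by
      rw [mem_W]
      rw [sx, max_lt_iff] at hwl
      have e1 : ∑ i, max (toR w i) 0 = ((∑ i, max (w i) 0 : ℤ) : ℝ) := by
        push_cast; rfl
      have e2 : ∑ i, max (-toR w i) 0 = ((∑ i, max (-w i) 0 : ℤ) : ℝ) := by
        push_cast; rfl
      rw [e1, e2] at hwl
      have a1 : (∑ i, max (w i) 0 : ℤ) < (h:ℤ) + 1 := by exact_mod_cast hwl.1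
      have a2 : (∑ i, max (-w i) 0 : ℤ) < (h:ℤ) + 1 := by exact_mod_cast hwl.2
      constructor <;> omega
    have hZ : Z c w := by
      simp only [Z]
      have h2 := (ZMod.intCast_zmod_eq_zero_iff_dvd (∑ i, w i * ((c i).val : ℤ)) p).2 hwd
      push_cast at h2
      simpa using h2
    have hwS : w ∈ S.filter (fun w => Z c w) := by
      rw [mem_filter, hS, mem_erase]; exact ⟨⟨hw0, hwW⟩, hZ⟩
    have hnS : -w ∈ S.filter (fun w => Z c w) := by
      rw [mem_filter, hS, mem_erase]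
      refine ⟨⟨neg_ne_zero.2 hw0, neg_mem_W hwW⟩, ?_⟩
      simp only [Z] at hZ ⊢
      simp only [Pi.neg_apply, Int.cast_neg, neg_mul, sum_neg_distrib, hZ, neg_zero]
    have hne : w ≠ -w := by
      intro heq
      apply hw0
      funext i
      have := congrFun heq i
      simp only [Pi.neg_apply] at this
      simp only [Pi.zero_apply]
      omega
    exact Finset.one_lt_card.2 ⟨w, hwS, -w, hnS, hne⟩
  have hsum1 : 2 * p^d ≤ ∑ c : Fin d → ZMod p, (S.filter (fun w => Z c w)).card := by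
    have : ∑ _c : Fin d → ZMod p, 2 ≤ ∑ c : Fin d → ZMod p, (S.filter (fun w => Z c w)).card :=
      sum_le_sum (fun c _ => hbad c)
    rw [sum_const, card_univ, Fintype.card_fun, ZMod.card, Fintype.card_fin, smul_eq_mul] at this
    linarith
  have hsum2 : ∑ c : Fin d → ZMod p, (S.filter (fun w => Z c w)).card
      = ∑ w ∈ S, (Finset.univ.filter (fun c : Fin d → ZMod p => Z c w)).card := by
    simp only [card_filter]
    exact sum_comm
  have hker : ∀ w ∈ S, (Finset.univ.filter (fun c : Fin d → ZMod p => Z c w)).card * p ≤ p^d := by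
    intro w hw
    rw [hS, mem_erase] at hw
    obtain ⟨hw0, hwW⟩ := hw
    obtain ⟨i0, hi0⟩ := Function.ne_iff.1 hw0
    have hwi : (w i0 : ZMod p) ≠ 0 := by
      intro h2
      rw [ZMod.intCast_zmod_eq_zero_iff_dvd] at h2
      rw [mem_W] at hwW
      have b1 : max (w i0) 0 ≤ ∑ i, max (w i) 0 :=
        single_le_sum (f := fun i => max (w i) 0) (fun j _ => le_max_right _ _) (mem_univ i0)
      have b2 : max (-w i0) 0 ≤ ∑ i, max (-w i) 0 :=
        single_le_sum (f := fun i => max (-w i) 0) (fun j _ => le_max_right _ _) (mem_univ i0)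
      have h3 := le_max_left (w i0) 0
      have h4 := le_max_left (-w i0) 0
      have h5 : |w i0| < p := by rw [abs_lt]; omega
      exact hi0 (Int.eq_zero_of_abs_lt_dvd h2 h5)
    have h1 : ((Finset.univ.filter (fun c : Fin d → ZMod p => Z c w)) ×ˢ
        (Finset.univ : Finset (ZMod p))).card ≤ (Finset.univ : Finset (Fin d → ZMod p)).card := by
      refine card_le_card_of_injOn (fun q => q.1 + q.2 • Pi.single i0 1) (fun _ _ => by simp) ?_
      rintro ⟨c, t⟩ hc ⟨c', t'⟩ hc' heq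
      rw [mem_coe, mem_product, mem_filter] at hc hc'
      have z1 : ∑ i, (w i : ZMod p) * c i = 0 := hc.1.2
      have z2 : ∑ i, (w i : ZMod p) * c' i = 0 := hc'.1.2
      simp only at heq
      have f1 : ∀ (c : Fin d → ZMod p) (t : ZMod p),
          ∑ i, (w i : ZMod p) * ((c + t • Pi.single i0 1 : Fin d → ZMod p) i) = ∑ i, (w i : ZMod p) * c i + w i0 * t := by
        intro c t
        simp only [Pi.add_apply, Pi.smul_apply, smul_eq_mul, mul_add, sum_add_distrib]
        congr 1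
        rw [sum_eq_single i0]
        · simp
        · intro j _ hj
          simp [Pi.single_eq_of_ne hj]
        · simp
      have f2 := f1 c t
      have f3 := f1 c' t'
      rw [heq, f3, z1, z2, zero_add, zero_add] at f2
      have ht : t' = t := mul_left_cancel₀ hwi f2
      subst ht
      have : c = c' := add_right_cancel heq
      rw [this]
    rw [card_product, card_univ, card_univ, ZMod.card, Fintype.card_fun, ZMod.card,
      Fintype.card_fin] at h1
    exact h1
  have hsum3 : (∑ w ∈ S, (Finset.univ.filter (fun c : Fin d → ZMod p => Z c w)).card) * p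
      ≤ S.card * p^d := by
    rw [sum_mul]
    calc _ ≤ ∑ _w ∈ S, p^d := sum_le_sum hker
      _ = S.card * p^d := by rw [sum_const, smul_eq_mul]
  rw [← hsum2] at hsum3
  have hpd : 0 < p^d := pow_pos hp.out.pos d
  have h7 : 2 * p^d * p ≤ S.card * p^d := (Nat.mul_le_mul_right p hsum1).trans hsum3
  have h8 : 2 * p ≤ S.card := by
    by_contra hlt
    push Not at hlt
    have : S.card * p^d < 2 * p * p^d := Nat.mul_lt_mul_of_pos_right hlt hpd
    nlinarith
  omega

lemma card_W_ge_lin (e h : ℕ) : 2 * h + 1 ≤ (W (e+1) h h).card := by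
  classical
  have h1 : (Finset.Icc (-(h:ℤ)) (h:ℤ)).card ≤ (W (e+1) h h).card := by
    refine card_le_card_of_injOn (fun x => (Fin.cons x 0 : Fin (e+1) → ℤ)) ?_ ?_
    · intro x hx
      rw [mem_coe, mem_Icc] at hx
      rw [mem_coe, mem_W, Fin.sum_univ_succ, Fin.sum_univ_succ]
      simp only [Fin.cons_zero, Fin.cons_succ, Pi.zero_apply, max_self, neg_zero, sum_const_zero,
        add_zero]
      rcases max_cases x 0 with h2 | h2 <;> rcases max_cases (-x) 0 with h3 | h3 <;> omega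
    · intro x _ y _ hxy
      have := congrFun hxy 0
      simpa using this
  have h2 : (Finset.Icc (-(h:ℤ)) (h:ℤ)).card = 2 * h + 1 := by
    rw [Int.card_Icc]; omega
  omega

/-- upper bound for the critical determinant -/
theorem crit_le_vol (e : ℕ) : crit (sx : (Fin (e+2) → ℝ) → ℝ)
    ≤ ((2*(e+2)).choose (e+2) : ℝ) / (e+2).factorial := by
  set d := e + 2 with hd
  set c : ℝ := ((2*d).choose d : ℝ) / d.factorial with hc
  have hcr := crit_nonneg (sx : (Fin d → ℝ) → ℝ)
  have key : ∀ h : ℕ, 1 ≤ h → crit (sx : (Fin d → ℝ) → ℝ) * ((h:ℝ) + 1)^d ≤ c * ((h:ℝ) + d)^d := by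
    intro h hh
    have hlin : 2 * h + 1 ≤ (W d h h).card := card_W_ge_lin (e+1) h
    set N := (W d h h).card with hN
    obtain ⟨p, hp, hp1, hp2⟩ := Nat.exists_prime_lt_and_le_two_mul (N / 2) (by omega)
    have : Fact p.Prime := ⟨hp⟩
    obtain ⟨b, hb⟩ := exists_prime_adm (d := d) p h (by omega) (by omega)
    have h1 := lower isNorm_sx p hp.one_lt.le b ((h:ℝ) + 1) (by positivity) hb
    have h2 : (p:ℝ) ≤ N := by
      have : p ≤ N := by omega
      exact_mod_cast this
    have h3 := card_W_le d h h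
    rw [V_diag] at h3
    exact h1.trans (h2.trans h3)
  have h0 : Tendsto (fun k : ℕ => 1 / (k : ℝ)) atTop (𝓝 0) := tendsto_one_div_atTop_nhds_zero_nat
  have hL : Tendsto (fun k : ℕ => crit (sx : (Fin d → ℝ) → ℝ) * (1 + 1 / (k:ℝ))^d) atTop
      (𝓝 (crit (sx : (Fin d → ℝ) → ℝ) * (1 + 0)^d)) :=
    ((h0.const_add 1).pow d).const_mul _
  have hR : Tendsto (fun k : ℕ => c * (1 + d * (1 / (k:ℝ)))^d) atTop (𝓝 (c * (1 + d * 0)^d)) :=
    (((h0.const_mul _).const_add 1).pow d).const_mul c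
  have hfin := le_of_tendsto_of_tendsto hL hR (by
    filter_upwards [eventually_ge_atTop 1] with k hk
    have hk0 : (0:ℝ) < k := by exact_mod_cast hk
    have h1 := key k hk
    have h2 : 0 < (k:ℝ)^d := by positivity
    rw [← mul_le_mul_iff_left₀ h2]
    have e1 : crit (sx : (Fin d → ℝ) → ℝ) * (1 + 1 / (k:ℝ))^d * (k:ℝ)^d
        = crit (sx : (Fin d → ℝ) → ℝ) * ((k:ℝ) + 1)^d := by
      rw [mul_assoc, ← mul_pow]; congr 2; field_simp
    have e2 : c * (1 + d * (1 / (k:ℝ)))^d * (k:ℝ)^d = c * ((k:ℝ) + d)^d := by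
      rw [mul_assoc, ← mul_pow]; congr 2; field_simp
    rw [e1, e2]
    exact h1)
  rw [mul_zero, add_zero, one_pow, mul_one, mul_one] at hfin
  exact hfin

end Pool.Agent.CycApx
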