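import Pool.Agent.CycApx.Tri

set_option autoImplicit false

namespace Pool.Agent.CycApx

open Finset Matrix Filter Topology

/-- Every admissible real matrix gives cyclic lattices of every large index. -/
theorem good_of_real {k : ℕ} {N : (Fin (k+2) → ℝ) → ℝ} {K : ℝ} (hN : IsGauge N K)
    (T : Matrix (Fin (k+2)) (Fin (k+2)) ℝ) (hT : T.det ≠ 0)
    (h : ∀ z : Fin (k+2) → ℤ, z ≠ 0 → 1 ≤ N (T.mulVec (fun i => (z i : ℝ))))
    (θ : ℝ) (hθ : θ * |T.det|^(1/((k+2 : ℕ):ℝ)) < 1) : Good N θ := by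
  classical
  obtain ⟨C, hC, hpert⟩ := pert hN T hT
  set A : ℕ → Matrix (Fin (k+2)) (Fin (k+2)) ℤ := fun s => Matrix.of (fun i j => round ((s:ℝ) * T i j))
    with hA
  have habs : 0 < |T.det| := abs_pos.2 hT
  -- determinants
  have hdetlim : Tendsto (fun s : ℕ => |(((A s).det : ℤ) : ℝ)| / (s:ℝ)^(k+2)) atTop (𝓝 |T.det|) := by
    have h1 : Tendsto (fun s : ℕ => (Matrix.of (fun i j => ((round ((s:ℝ) * T i j) : ℤ) : ℝ) / s) :
        Matrix (Fin (k+2)) (Fin (k+2)) ℝ)) atTop (𝓝 T) := by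
      refine tendsto_pi_nhds.2 (fun i => tendsto_pi_nhds.2 (fun j => ?_))
      have h2 : Tendsto (fun s : ℕ => T i j + (1 / (s:ℝ))) atTop (𝓝 (T i j + 0)) :=
        (tendsto_one_div_atTop_nhds_zero_nat).const_add _
      have h3 : Tendsto (fun s : ℕ => T i j - (1 / (s:ℝ))) atTop (𝓝 (T i j - 0)) :=
        (tendsto_one_div_atTop_nhds_zero_nat).const_sub _
      rw [add_zero] at h2
      rw [sub_zero] at h3
      refine tendsto_of_tendsto_of_tendsto_of_le_of_le' h3 h2 ?_ ?_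
      · filter_upwards [eventually_gt_atTop 0] with s hs
        have hsr : (0:ℝ) < s := by exact_mod_cast hs
        have := abs_le.1 (abs_sub_round ((s:ℝ) * T i j))
        rw [Matrix.of_apply, le_div_iff₀ hsr, sub_mul, one_div, inv_mul_cancel₀ hsr.ne']
        linarith [this.2]
      · filter_upwards [eventually_gt_atTop 0] with s hs
        have hsr : (0:ℝ) < s := by exact_mod_cast hs
        have := abs_le.1 (abs_sub_round ((s:ℝ) * T i j))
        rw [Matrix.of_apply, div_le_iff₀ hsr, add_mul, one_div, inv_mul_cancel₀ hsr.ne']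
        linarith [this.1]
    have h4 : Continuous (fun M : Matrix (Fin (k+2)) (Fin (k+2)) ℝ => |M.det|) :=
      (Continuous.matrix_det continuous_id).abs
    have h5 := (h4.tendsto T).comp h1
    refine h5.congr' ?_
    filter_upwards [eventually_gt_atTop 0] with s hs
    have hsr : (0:ℝ) < s := by exact_mod_cast hs
    have e1 : (Matrix.of (fun i j => ((round ((s:ℝ) * T i j) : ℤ) : ℝ) / s) :
        Matrix (Fin (k+2)) (Fin (k+2)) ℝ) = (1 / (s:ℝ)) • (A s).map (fun x : ℤ => (x:ℝ)) := by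
      ext i j
      simp only [hA, Matrix.of_apply, Matrix.smul_apply, Matrix.map_apply, smul_eq_mul]
      ring
    rw [Function.comp_apply, e1, Matrix.det_smul, map_det, Fintype.card_fin, abs_mul, abs_pow,
      abs_of_pos (by positivity : (0:ℝ) < 1 / s), one_div, inv_pow]
    field_simp
  have hlim2 : Tendsto (fun s : ℕ => θ * (|(((A s).det : ℤ) : ℝ)| / (s:ℝ)^(k+2))^(1/((k+2 : ℕ):ℝ)))
      atTop (𝓝 (θ * |T.det|^(1/((k+2 : ℕ):ℝ)))) :=
    (hdetlim.rpow_const (Or.inl habs.ne')).const_mul θ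
  have hlim3 : Tendsto (fun s : ℕ => 1 - C * (1 / (s:ℝ))) atTop (𝓝 1) := by
    have := ((tendsto_one_div_atTop_nhds_zero_nat (𝕜 := ℝ)).const_mul C).const_sub 1
    simpa using this
  have hev1 := hlim2.eventually_lt hlim3 hθ
  have hev2 := hdetlim.eventually (lt_mem_nhds habs)
  have hev3 := (tendsto_const_nhds (x := (0:ℝ))).eventually_lt hlim3 one_pos
  obtain ⟨s, hs1, hs2, hs3, hs4⟩ := (hev1.and (hev2.and (hev3.and (eventually_gt_atTop 0)))).exists
  have hsr : (0:ℝ) < s := by exact_mod_cast hs4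
  have hAdet : (A s).det ≠ 0 := by
    intro h0
    rw [h0] at hs2
    simp at hs2
  obtain ⟨H, hH0, hH1, hHA, hHdet⟩ := hnf_matrix (A s) hAdet
  have hHdet0 : H.det ≠ 0 := by
    rw [Matrix.det_of_isUpperTriangular (fun i j hij => hH0 i j hij)]
    exact (prod_pos (fun i _ => hH1 i)).ne'
  refine good_of_tri hN H hH0 hH1 (s * (1 - C * (1 / (s:ℝ)))) (by positivity) ?_ θ ?_
  · intro z hz
    obtain ⟨w, hw⟩ := hHA z
    have hw0 : w ≠ 0 := by
      rintro rfl
      rw [Matrix.mulVec_zero] at hw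
      exact mulVec_ne_zero H hHdet0 z hz hw.symm
    have h1 := hpert s (1 / (s:ℝ)) hsr.le (by positivity) ((A s).map (fun x : ℤ => (x : ℝ))) (by
      intro i j
      rw [one_div, inv_mul_cancel₀ hsr.ne', abs_sub_comm]
      have := abs_sub_round ((s:ℝ) * T i j)
      simp only [hA, Matrix.map_apply, Matrix.of_apply]
      linarith) (fun i => (w i : ℝ))
    rw [← cast_mulVec (A s) w, hw, cast_mulVec H z] at h1
    refine le_trans ?_ h1
    have h2 := h w hw0
    calc (s:ℝ) * (1 - C * (1 / (s:ℝ))) = s * (1 - C * (1 / (s:ℝ))) * 1 := by ring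
      _ ≤ _ := by
        apply mul_le_mul_of_nonneg_left h2
        exact mul_nonneg hsr.le hs3.le
  · have e0 : ((∏ i, H i i : ℤ) : ℝ) = |(((A s).det : ℤ) : ℝ)| := by
      rw [hHdet]; push_cast; rfl
    rw [e0]
    have e1 : |(((A s).det : ℤ) : ℝ)|^(1/((k+2 : ℕ):ℝ))
        = s * (|(((A s).det : ℤ) : ℝ)| / (s:ℝ)^(k+2))^(1/((k+2 : ℕ):ℝ)) := by
      have h5 : (s:ℝ) = ((s:ℝ)^(k+2))^(1/((k+2 : ℕ):ℝ)) := by
        rw [one_div, Real.pow_rpow_inv_natCast hsr.le (by omega)]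
      conv_rhs => rw [h5]
      rw [← Real.mul_rpow (by positivity) (by positivity), ← h5]
      congr 1
      field_simp
    rw [e1]
    calc θ * (s * (|(((A s).det : ℤ) : ℝ)| / (s:ℝ)^(k+2))^(1/((k+2 : ℕ):ℝ)))
        = s * (θ * (|(((A s).det : ℤ) : ℝ)| / (s:ℝ)^(k+2))^(1/((k+2 : ℕ):ℝ))) := by ring
      _ < s * (1 - C * (1 / (s:ℝ))) := mul_lt_mul_of_pos_left hs1 hsr

end Pool.Agent.CycApx
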