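import Mathlib

set_option autoImplicit false

namespace Pool.Agent.CycApx

open Finset Matrix

/-- Hermite normal form of a full rank subgroup of `ℤ^d`. -/
lemma hnf {d : ℕ} (Λ : AddSubgroup (Fin d → ℤ)) (q : ℕ) (hq : 0 < q)
    (hΛ : ∀ y : Fin d → ℤ, (q : ℤ) • y ∈ Λ) :
    ∃ H : Matrix (Fin d) (Fin d) ℤ, (∀ i j, j < i → H i j = 0) ∧ (∀ i, 0 < H i i) ∧
      ∀ y, y ∈ Λ ↔ ∃ z, H.mulVec z = y := by
  classical
  have hex : ∀ k : Fin d, ∃ g : ℕ, 0 < g ∧ ∃ v ∈ Λ, (∀ i, k < i → v i = 0) ∧ v k = (g : ℤ) := by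
    intro k
    refine ⟨q, hq, (q : ℤ) • Pi.single k 1, hΛ _, fun i hi => ?_, ?_⟩
    · simp [Pi.single_eq_of_ne hi.ne']
    · simp
  choose v hvΛ hv0 hvk using fun k => (Nat.find_spec (hex k)).2
  have hg0 : ∀ k, 0 < Nat.find (hex k) := fun k => (Nat.find_spec (hex k)).1
  have hdvd : ∀ k (y : Fin d → ℤ), y ∈ Λ → (∀ i, k < i → y i = 0) →
      ((Nat.find (hex k) : ℕ) : ℤ) ∣ y k := by
    intro k y hy h0
    set g := Nat.find (hex k) with hg
    by_contra hnd
    have hgp : (0:ℤ) < g := by exact_mod_cast hg0 k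
    have hr0 : 0 ≤ y k % g := Int.emod_nonneg _ hgp.ne'
    have hr1 : y k % g < g := Int.emod_lt_of_pos _ hgp
    have hr2 : y k % g ≠ 0 := fun h => hnd (Int.dvd_of_emod_eq_zero h)
    have hmin := Nat.find_min (hex k) (m := (y k % g).toNat) (by
      rw [← hg]; omega)
    apply hmin
    refine ⟨by omega, y - (y k / g) • v k, Λ.sub_mem hy (Λ.zsmul_mem (hvΛ k) _), ?_, ?_⟩
    · intro i hi
      simp [h0 i hi, hv0 k i hi]
    · have := hvk k
      rw [← hg] at this
      simp only [Pi.sub_apply, Pi.smul_apply, smul_eq_mul, this]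
      rw [Int.toNat_of_nonneg hr0, Int.emod_def]
      ring
  refine ⟨Matrix.of (fun i j => v j i), fun i j hij => hv0 j i hij, fun i => ?_, fun y => ⟨?_, ?_⟩⟩
  · rw [Matrix.of_apply, hvk i]; exact_mod_cast hg0 i
  · have key : ∀ m : ℕ, ∀ y : Fin d → ℤ, y ∈ Λ → (∀ i : Fin d, m ≤ i.val → y i = 0) →
        ∃ z, Matrix.mulVec (Matrix.of (fun i j => v j i)) z = y := by
      intro m
      induction m with
      | zero =>
        intro y _ h0
        refine ⟨0, ?_⟩
        rw [Matrix.mulVec_zero]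
        funext i
        exact (h0 i (Nat.zero_le _)).symm
      | succ m ih =>
        intro y hy h0
        by_cases hm : m < d
        · obtain ⟨w, hw⟩ := hdvd ⟨m, hm⟩ y hy (fun i hi => h0 i hi)
          obtain ⟨z, hz⟩ := ih (y - w • v ⟨m, hm⟩) (Λ.sub_mem hy (Λ.zsmul_mem (hvΛ _) _)) (by
            intro i hi
            rcases Nat.eq_or_lt_of_le hi with h | h
            · have : i = ⟨m, hm⟩ := Fin.ext h.symm
              subst this
              simp only [Pi.sub_apply, Pi.smul_apply, smul_eq_mul, hvk]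
              rw [hw]; ring
            · simp only [Pi.sub_apply, Pi.smul_apply, smul_eq_mul]
              rw [h0 i h, hv0 ⟨m, hm⟩ i h]; ring)
          refine ⟨z + w • Pi.single ⟨m, hm⟩ 1, ?_⟩
          rw [Matrix.mulVec_add, hz, Matrix.mulVec_smul]
          funext i
          simp [Matrix.mulVec, dotProduct]
        · exact ih y hy (fun i hi => by have := i.2; omega)
    intro hy
    exact key d y hy (fun i hi => by have := i.2; omega)
  · rintro ⟨z, rfl⟩
    have : Matrix.mulVec (Matrix.of (fun i j => v j i)) z = ∑ j, z j • v j := by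
      funext i
      simp [Matrix.mulVec, dotProduct, mul_comm]
    rw [this]
    exact Λ.sum_mem (fun j _ => Λ.zsmul_mem (hvΛ j) _)

/-- Hermite normal form of an integer matrix. -/
lemma hnf_matrix {d : ℕ} (A : Matrix (Fin d) (Fin d) ℤ) (hA : A.det ≠ 0) :
    ∃ H : Matrix (Fin d) (Fin d) ℤ, (∀ i j, j < i → H i j = 0) ∧ (∀ i, 0 < H i i) ∧
      (∀ z, ∃ w, A.mulVec w = H.mulVec z) ∧ ∏ i, H i i = |A.det| := by
  classical
  set Λ : AddSubgroup (Fin d → ℤ) := (Matrix.mulVecLin A).toAddMonoidHom.range with hΛ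
  have hmem : ∀ y, y ∈ Λ ↔ ∃ z, A.mulVec z = y := fun y => by
    rw [hΛ]; exact Iff.rfl
  obtain ⟨H, h1, h2, h3⟩ := hnf Λ A.det.natAbs (Int.natAbs_pos.2 hA) (by
    intro y
    rw [hmem]
    refine ⟨(A.det.sign) • (A.adjugate.mulVec y), ?_⟩
    rw [Matrix.mulVec_smul, Matrix.mulVec_mulVec, Matrix.mul_adjugate]
    funext i
    simp only [Matrix.smul_mulVec, Matrix.one_mulVec, Pi.smul_apply, smul_eq_mul]
    rw [← mul_assoc, Int.sign_mul_self_eq_abs, Int.natCast_natAbs])
  refine ⟨H, h1, h2, fun z => ?_, ?_⟩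
  · have := (hmem (H.mulVec z)).1 ((h3 _).2 ⟨z, rfl⟩)
    exact this
  · have hdetH : H.det = ∏ i, H i i := Matrix.det_of_isUpperTriangular (fun i j hij => h1 i j hij)
    have hpos : 0 < ∏ i, H i i := prod_pos (fun i _ => h2 i)
    -- A = H * V
    have hV : ∀ j, ∃ w, H.mulVec w = A.mulVec (Pi.single j 1) := fun j =>
      (h3 _).1 ((hmem _).2 ⟨_, rfl⟩)
    choose V hV using hV
    have hW : ∀ j, ∃ w, A.mulVec w = H.mulVec (Pi.single j 1) := fun j =>
      (hmem _).1 ((h3 _).2 ⟨_, rfl⟩)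
    choose W hW using hW
    have eV : H * Matrix.of (fun i j => V j i) = A := by
      ext i j
      have := congrFun (hV j) i
      rw [Matrix.mulVec_single_one] at this
      exact this
    have eW : A * Matrix.of (fun i j => W j i) = H := by
      ext i j
      have := congrFun (hW j) i
      rw [Matrix.mulVec_single_one] at this
      exact this
    have d1 : H.det ∣ A.det := ⟨_, by rw [← Matrix.det_mul, eV]⟩
    have d2 : A.det ∣ H.det := ⟨_, by rw [← Matrix.det_mul, eW]⟩
    have := Int.natAbs_eq_of_dvd_dvd d1 d2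
    rw [← hdetH]
    rw [hdetH] at this
    have h5 : |H.det| = |A.det| := by
      rw [← Int.natCast_natAbs, ← Int.natCast_natAbs, hdetH, this]
    rw [← h5, abs_of_pos (by rw [hdetH]; exact hpos)]

end Pool.Agent.CycApx
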