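import Mathlib

set_option autoImplicit false

namespace Pool.Agent.CycApx

open Finset

/-- Solving the triangular system attached to a Hessenberg matrix with subdiagonal `-1`. -/
lemma hess_aux (M : ℕ → ℕ → ℤ) (h1 : ∀ j, M (j+1) j = -1) (h2 : ∀ i j, j + 1 < i → M i j = 0)
    (c : ℕ → ℤ) (c0 : c 0 = 1) (hc : ∀ j, c (j+1) = ∑ i ∈ range (j+1), c i * M i j) :
    ∀ k (y : ℕ → ℤ), (∀ i, k < i → y i = 0) → ∑ i ∈ range (k+1), c i * y i = 0 →
      ∃ z : ℕ → ℤ, ∀ i, ∑ j ∈ range k, M i j * z j = y i := by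
  intro k
  induction k with
  | zero =>
    intro y hy hs
    refine ⟨0, fun i => ?_⟩
    simp only [range_zero, sum_empty]
    rcases Nat.eq_zero_or_pos i with rfl | hi
    · simp [c0] at hs
      exact hs.symm
    · exact (hy i hi).symm
  | succ k ih =>
    intro y hy hs
    set w : ℤ := - y (k+1) with hw
    obtain ⟨z, hz⟩ := ih (fun i => y i - w * M i k) (by
      intro i hi
      rcases Nat.lt_or_ge (k+1) i with h | h
      · simp [hy i h, h2 i k h]
      · have : i = k + 1 := by omega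
        subst this
        simp [h1, hw]) (by
      have e1 : ∑ i ∈ range (k+1), c i * (y i - w * M i k)
          = ∑ i ∈ range (k+1), c i * y i - w * ∑ i ∈ range (k+1), c i * M i k := by
        rw [mul_sum, ← sum_sub_distrib]
        exact sum_congr rfl (fun i _ => by ring)
      rw [e1, ← hc k]
      rw [sum_range_succ] at hs
      rw [hw]
      linear_combination hs)
    refine ⟨fun j => if j < k then z j else w, fun i => ?_⟩
    rw [sum_range_succ]
    simp only [lt_irrefl, if_false]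
    have e2 : ∑ j ∈ range k, M i j * (if j < k then z j else w) = ∑ j ∈ range k, M i j * z j :=
      sum_congr rfl (fun j hj => by rw [if_pos (mem_range.1 hj)])
    rw [e2, hz i]
    ring

/-- The lattice of a Hessenberg matrix contains `{y : n ∣ c·y}`. -/
lemma hess (M : ℕ → ℕ → ℤ) (h1 : ∀ j, M (j+1) j = -1) (h2 : ∀ i j, j + 1 < i → M i j = 0)
    (c : ℕ → ℤ) (c0 : c 0 = 1) (hc : ∀ j, c (j+1) = ∑ i ∈ range (j+1), c i * M i j)
    (e : ℕ) (y : ℕ → ℤ) (hy : c (e+1) ∣ ∑ i ∈ range (e+1), c i * y i) :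
    ∃ z : ℕ → ℤ, ∀ i, i < e + 1 → ∑ j ∈ range (e+1), M i j * z j = y i := by
  obtain ⟨w, hw⟩ := hy
  obtain ⟨z, hz⟩ := hess_aux M h1 h2 c c0 hc e (fun i => if i ≤ e then y i - w * M i e else 0)
    (fun i hi => by rw [if_neg (by omega)]) (by
      have e1 : ∑ i ∈ range (e+1), c i * (if i ≤ e then y i - w * M i e else 0)
          = ∑ i ∈ range (e+1), c i * y i - w * ∑ i ∈ range (e+1), c i * M i e := by
        rw [mul_sum, ← sum_sub_distrib]
        refine sum_congr rfl (fun i hi => ?_)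
        rw [if_pos (by have := mem_range.1 hi; omega)]
        ring
      rw [e1, ← hc e, hw]
      ring)
  refine ⟨fun j => if j < e then z j else w, fun i hi => ?_⟩
  rw [sum_range_succ]
  simp only [lt_irrefl, if_false]
  have e2 : ∑ j ∈ range e, M i j * (if j < e then z j else w) = ∑ j ∈ range e, M i j * z j :=
    sum_congr rfl (fun j hj => by rw [if_pos (mem_range.1 hj)])
  rw [e2, hz i, if_pos (by omega)]
  ring

/-- Horner scheme in base `L` with digits absorbed by multiples of `p L + r`. -/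
lemma horner (L ρ p : ℤ) (hL : 0 < L) (hρ : 0 < ρ) (hp : 0 ≤ p) (a : ℕ → ℤ) (A : ℝ)
    (hA : ∀ j, |(a j : ℝ)| ≤ A) :
    ∀ (k : ℕ) (n : ℤ), ∃ C m r : ℕ → ℤ, C (k+2) = n ∧
      (∀ j, 2 ≤ j → j < k + 2 → C (j+1) = L * C j + (a j * L + r j) + (p * L + ρ) * m j) ∧
      (∀ j, 0 ≤ r j ∧ r j < ρ) ∧ (∀ j, 0 ≤ m j ∧ m j * ρ ≤ L) ∧
      |(C 2 : ℝ) - n / (L:ℝ)^k| ≤ k * (1 + A + p * L / ρ) := by
  intro k
  have hLr : (1:ℝ) ≤ L := by exact_mod_cast hL
  have hρr : (0:ℝ) < ρ := by exact_mod_cast hρ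
  have hpr : (0:ℝ) ≤ p := by exact_mod_cast hp
  have hA0 : 0 ≤ A := (abs_nonneg _).trans (hA 0)
  induction k with
  | zero =>
    intro n
    refine ⟨fun _ => n, fun _ => 0, fun _ => 0, rfl, fun j h1 h2 => by omega, fun j => ⟨le_refl _, hρ⟩,
      fun j => ⟨le_refl _, by simpa using hL.le⟩, by simp⟩
  | succ k ih =>
    intro n
    set t := n % L with ht
    set mm := t / ρ with hmm
    set rr := t % ρ with hrr
    set n' := n / L - a (k+2) - p * mm with hn'
    have ht0 : 0 ≤ t := Int.emod_nonneg _ hL.ne'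
    have ht1 : t < L := Int.emod_lt_of_pos _ hL
    have hm0 : 0 ≤ mm := Int.ediv_nonneg ht0 hρ.le
    have hr0 : 0 ≤ rr := Int.emod_nonneg _ hρ.ne'
    have hr1 : rr < ρ := Int.emod_lt_of_pos _ hρ
    have e1 : L * (n / L) + t = n := Int.mul_ediv_add_emod n L
    have e2 : ρ * mm + rr = t := Int.mul_ediv_add_emod t ρ
    have hm1 : mm * ρ ≤ L := by nlinarith
    obtain ⟨C, m, r, hC, hrec, hr, hm, hb⟩ := ih n'
    refine ⟨fun j => if j ≤ k + 2 then C j else n, fun j => if j < k + 2 then m j else mm,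
      fun j => if j < k + 2 then r j else rr, ?_, ?_, ?_, ?_, ?_⟩
    · simp
    · intro j h1 h2
      rcases Nat.lt_or_ge j (k+2) with h | h
      · simp only [h, if_true, h.le, show j + 1 ≤ k + 2 from h]
        exact hrec j h1 h
      · have : j = k + 2 := by omega
        subst this
        simp only [le_refl, if_true, lt_irrefl, if_false, show ¬ (k + 2 + 1 ≤ k + 2) by omega]
        rw [hC, hn']
        linear_combination -e1 - e2
    · intro j
      by_cases h : j < k + 2
      · simp only [h, if_true]; exact hr j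
      · simp only [h, if_false]; exact ⟨hr0, hr1⟩
    · intro j
      by_cases h : j < k + 2
      · simp only [h, if_true]; exact hm j
      · simp only [h, if_false]; exact ⟨hm0, hm1⟩
    · simp only [show 2 ≤ k + 2 by omega, if_true]
      have hLk : (1:ℝ) ≤ (L:ℝ)^k := one_le_pow₀ hLr
      have hb1 : |(n' : ℝ) - n / L| ≤ 1 + A + p * L / ρ := by
        have e1r : (L:ℝ) * ((n / L : ℤ) : ℝ) + t = n := by exact_mod_cast e1
        have ht0r : (0:ℝ) ≤ t := by exact_mod_cast ht0
        have ht1r : (t:ℝ) ≤ L := by exact_mod_cast ht1.le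
        have hm0r : (0:ℝ) ≤ mm := by exact_mod_cast hm0
        have hm1r : (mm:ℝ) * ρ ≤ L := by exact_mod_cast hm1
        have e3 : (n:ℝ) / L = ((n / L : ℤ) : ℝ) + t / L := by
          rw [← e1r]; field_simp
        have h4 : (t:ℝ) / L ≤ 1 := by rw [div_le_one (by linarith)]; exact ht1r
        have h4' : 0 ≤ (t:ℝ) / L := by positivity
        have h5 : (p:ℝ) * mm ≤ p * L / ρ := by
          rw [le_div_iff₀ hρr]; nlinarith
        have h5' : 0 ≤ (p:ℝ) * mm := by positivity
        have h6 := abs_le.1 (hA (k+2))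
        rw [e3, hn']
        push_cast
        rw [abs_le]
        constructor <;> linarith [h6.1, h6.2]
      have hb2 : |(n' : ℝ) / (L:ℝ)^k - n / (L:ℝ)^(k+1)| ≤ 1 + A + p * L / ρ := by
        have : (n' : ℝ) / (L:ℝ)^k - n / (L:ℝ)^(k+1) = ((n' : ℝ) - n / L) / (L:ℝ)^k := by
          field_simp
          ring
        rw [this, abs_div, abs_of_pos (by positivity : (0:ℝ) < (L:ℝ)^k)]
        exact (div_le_self (abs_nonneg _) hLk).trans hb1
      calc |(C 2 : ℝ) - n / (L:ℝ)^(k+1)|
          ≤ |(C 2 : ℝ) - n' / (L:ℝ)^k| + |(n' : ℝ) / (L:ℝ)^k - n / (L:ℝ)^(k+1)| :=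
            abs_sub_le _ _ _
        _ ≤ k * (1 + A + p * L / ρ) + (1 + A + p * L / ρ) := add_le_add hb hb2
        _ = ((k + 1 : ℕ) : ℝ) * (1 + A + p * L / ρ) := by push_cast; ring

end Pool.Agent.CycApx
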