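import Pool.Agent.CycApx.Gen
import Pool.Agent.CycLat.Norm

set_option autoImplicit false

namespace Pool.Agent.CycApx

open Finset Matrix Filter Topology CycLat

/-- Every `n ≥ (crit F + ε) T^d`, `n` large, carries a cyclic lattice with `F`-minimum `≥ T`. -/
theorem main_apx {e : ℕ} {F : (Fin (e + 2) → ℝ) → ℝ} (hF : IsNorm F) (ε : ℝ) (hε : 0 < ε) :
    ∃ n₀ : ℕ, ∀ n : ℕ, n₀ ≤ n → ∃ b : Fin (e + 2) → ℤ, ∀ T : ℝ, 0 ≤ T →
      (crit F + ε) * T ^ (e + 2) ≤ n → Adm F n b T := by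
  classical
  obtain ⟨c, C, hc, hC, hb⟩ := hF.bounds
  have hg : IsGauge F (max C (1 / c)) := by
    refine ⟨hF.add_le, fun t x ht => by rw [hF.smul, abs_of_nonneg ht], fun x => ?_, fun x => ?_,
      lt_max_of_lt_left hC⟩
    · exact (hb x).2.trans (mul_le_mul_of_nonneg_right (le_max_left _ _) (norm_nonneg _))
    · have h1 := (hb x).1
      have h2 : ‖x‖ ≤ 1 / c * F x := by
        rw [one_div, ← div_eq_inv_mul, le_div_iff₀ hc]; linarith
      refine h2.trans (mul_le_mul_of_nonneg_right (le_max_right _ _) ?_)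
      exact (mul_nonneg hc.le (norm_nonneg _)).trans h1
  have hne : {x : ℝ | ∃ M : Matrix (Fin (e+2)) (Fin (e+2)) ℝ, M.det ≠ 0 ∧
      (∀ z : Fin (e+2) → ℤ, z ≠ 0 → 1 ≤ F (toR z ᵥ* M)) ∧ x = |M.det|}.Nonempty := by
    refine ⟨_, (1 / c) • (1 : Matrix (Fin (e+2)) (Fin (e+2)) ℝ), ?_, ?_, rfl⟩
    · rw [Matrix.det_smul, Matrix.det_one, mul_one]; positivity
    · intro z hz
      have e1 : toR z ᵥ* ((1 / c) • (1 : Matrix (Fin (e+2)) (Fin (e+2)) ℝ)) = (1 / c) • toR z := by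
        rw [Matrix.vecMul_smul, Matrix.vecMul_one]
      rw [e1, hF.smul, abs_of_pos (by positivity)]
      have h1 : 1 ≤ ‖toR z‖ := by
        obtain ⟨i, hi⟩ := Function.ne_iff.1 hz
        have h2 : (1:ℝ) ≤ |(z i : ℝ)| := by
          have : (1:ℤ) ≤ |z i| := Int.one_le_abs hi
          exact_mod_cast this
        exact h2.trans (norm_le_pi_norm (toR z) i)
      have h2 := (hb (toR z)).1
      have h3 : c ≤ F (toR z) := by nlinarith
      rw [one_div, ← div_eq_inv_mul, le_div_iff₀ hc]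
      linarith
  have hcrit0 : 0 ≤ crit F := by
    apply Real.sInf_nonneg
    rintro x ⟨M, _, _, rfl⟩
    exact abs_nonneg _
  obtain ⟨x, ⟨M, hM, hM1, rfl⟩, hlt⟩ := exists_lt_of_csInf_lt hne
    (show sInf _ < crit F + ε by rw [← crit]; linarith)
  have hpos : 0 < crit F + ε := by linarith
  set θ : ℝ := 1 / (crit F + ε)^(1/((e+2 : ℕ):ℝ)) with hθ
  have hq0 : 0 < (crit F + ε)^(1/((e+2 : ℕ):ℝ)) := Real.rpow_pos_of_pos hpos _
  obtain ⟨n0, hn0⟩ := good_of_real hg Mᵀ (by rwa [Matrix.det_transpose]) (by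
    intro z hz
    rw [Matrix.mulVec_transpose]
    exact hM1 z hz) θ (by
    rw [Matrix.det_transpose, hθ, one_div, ← div_eq_inv_mul, div_lt_one hq0]
    exact Real.rpow_lt_rpow (abs_nonneg _) hlt (by positivity))
  refine ⟨n0, fun n hn => ?_⟩
  obtain ⟨b, hb⟩ := hn0 n hn
  refine ⟨b, fun T hT hTn w hw hdvd => ?_⟩
  refine le_trans ?_ (hb w hw (by
    have : ∑ i, b i * w i = ∑ i, w i * b i := sum_congr rfl (fun i _ => mul_comm _ _)
    rw [this]; exact hdvd))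
  have hd : ((e + 2 : ℕ) : ℝ) ≠ 0 := by positivity
  have h1 : ((crit F + ε) * T ^ (e+2))^(1/((e+2 : ℕ):ℝ)) ≤ (n:ℝ)^(1/((e+2 : ℕ):ℝ)) :=
    Real.rpow_le_rpow (by positivity) hTn (by positivity)
  rw [Real.mul_rpow hpos.le (by positivity)] at h1
  have h2 : (T ^ (e+2))^(1/((e+2 : ℕ):ℝ)) = T := by
    rw [one_div, Real.pow_rpow_inv_natCast hT (by omega)]
  rw [h2] at h1
  rw [hθ, one_div, ← div_eq_inv_mul, le_div_iff₀ hq0]
  linarith

end Pool.Agent.CycApx
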