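import Mathlib

set_option autoImplicit false

namespace Pool.Agent.CycApx

open Finset Matrix

/-- `N` is a (not necessarily symmetric) gauge on `ℝ^d`, comparable with the maximum norm. -/
structure IsGauge {d : ℕ} (N : (Fin d → ℝ) → ℝ) (K : ℝ) : Prop where
  sub : ∀ x y, N (x + y) ≤ N x + N y
  hom : ∀ (c : ℝ) (x : Fin d → ℝ), 0 ≤ c → N (c • x) = c * N x
  le : ∀ x, N x ≤ K * ‖x‖
  ge : ∀ x, ‖x‖ ≤ K * N x
  pos : 0 < K

lemma IsGauge.nonneg {d : ℕ} {N : (Fin d → ℝ) → ℝ} {K : ℝ} (h : IsGauge N K) (x : Fin d → ℝ) :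
    0 ≤ N x := by
  have h1 := (norm_nonneg x).trans (h.ge x)
  by_contra hn
  push Not at hn
  have := mul_neg_of_pos_of_neg h.pos hn
  linarith

lemma exists_inv_bound {d : ℕ} (A : Matrix (Fin d) (Fin d) ℝ) (hA : A.det ≠ 0) :
    ∃ C : ℝ, 0 < C ∧ ∀ z : Fin d → ℝ, ‖z‖ ≤ C * ‖A.mulVec z‖ := by
  set f : (Fin d → ℝ) →L[ℝ] (Fin d → ℝ) := LinearMap.toContinuousLinearMap (Matrix.mulVecLin A⁻¹)
    with hf
  refine ⟨‖f‖ + 1, by positivity, fun z => ?_⟩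
  have h1 : z = f (A.mulVec z) := by
    rw [hf]
    simp only [LinearMap.coe_toContinuousLinearMap', Matrix.mulVecLin_apply, Matrix.mulVec_mulVec]
    rw [Matrix.nonsing_inv_mul A (isUnit_iff_ne_zero.2 hA), Matrix.one_mulVec]
  calc ‖z‖ = ‖f (A.mulVec z)‖ := by rw [← h1]
    _ ≤ ‖f‖ * ‖A.mulVec z‖ := f.le_opNorm _
    _ ≤ (‖f‖ + 1) * ‖A.mulVec z‖ := by
        apply mul_le_mul_of_nonneg_right _ (norm_nonneg _); linarith

lemma mulVec_norm_le {d : ℕ} (E : Matrix (Fin d) (Fin d) ℝ) (δ : ℝ) (hδ : 0 ≤ δ)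
    (hE : ∀ i j, |E i j| ≤ δ) (z : Fin d → ℝ) : ‖E.mulVec z‖ ≤ d * δ * ‖z‖ := by
  rw [pi_norm_le_iff_of_nonneg (by positivity)]
  intro i
  rw [Matrix.mulVec, dotProduct, Real.norm_eq_abs]
  calc |∑ j, E i j * z j| ≤ ∑ j, |E i j * z j| := abs_sum_le_sum_abs _ _
    _ ≤ ∑ _j : Fin d, δ * ‖z‖ := by
        refine sum_le_sum (fun j _ => ?_)
        rw [abs_mul]
        exact mul_le_mul (hE i j) (norm_le_pi_norm z j) (abs_nonneg _) hδ
    _ = d * δ * ‖z‖ := by simp; ring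

/-- Perturbation: a matrix close to `L • A` has a gauge close to `L` times that of `A`. -/
lemma pert {d : ℕ} {N : (Fin d → ℝ) → ℝ} {K : ℝ} (hN : IsGauge N K)
    (A : Matrix (Fin d) (Fin d) ℝ) (hA : A.det ≠ 0) :
    ∃ C : ℝ, 0 < C ∧ ∀ (L ε : ℝ), 0 ≤ L → 0 ≤ ε → ∀ M : Matrix (Fin d) (Fin d) ℝ,
      (∀ i j, |M i j - L * A i j| ≤ ε * L) → ∀ z : Fin d → ℝ,
        L * (1 - C * ε) * N (A.mulVec z) ≤ N (M.mulVec z) := by
  obtain ⟨C1, hC1, hb⟩ := exists_inv_bound A hA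
  have hK := hN.pos
  refine ⟨K * d * C1 * K + 1, by positivity, fun L ε hL hε M hM z => ?_⟩
  have hNA := hN.nonneg (A.mulVec z)
  have h1 : L • (A.mulVec z) = M.mulVec z + ((L • A - M).mulVec z) := by
    rw [Matrix.sub_mulVec, Matrix.smul_mulVec]
    abel
  have h2 : ‖(L • A - M).mulVec z‖ ≤ d * (ε * L) * ‖z‖ := by
    apply mulVec_norm_le _ _ (by positivity)
    intro i j
    rw [Matrix.sub_apply, Matrix.smul_apply, smul_eq_mul, abs_sub_comm]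
    exact hM i j
  have h3 : L * N (A.mulVec z) ≤ N (M.mulVec z) + N ((L • A - M).mulVec z) := by
    rw [← hN.hom L _ hL, h1]
    exact hN.sub _ _
  have h4 : N ((L • A - M).mulVec z) ≤ K * (d * (ε * L) * (C1 * (K * N (A.mulVec z)))) := by
    refine (hN.le _).trans (mul_le_mul_of_nonneg_left (h2.trans ?_) hK.le)
    apply mul_le_mul_of_nonneg_left _ (by positivity)
    exact (hb z).trans (mul_le_mul_of_nonneg_left (hN.ge _) hC1.le)
  have h5 : 0 ≤ L * ε * N (A.mulVec z) := by positivity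
  nlinarith [h3, h4, h5]

end Pool.Agent.CycApx
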