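import Pool.Agent.CycApx.Step
import Pool.Agent.CycApx.Pert

set_option autoImplicit false

namespace Pool.Agent.CycApx

open Finset Matrix

/-- The value `θ` is attained in all large cyclic groups: for all large `n` there is a linear form
`c` such that every nonzero integer vector `y` with `n ∣ c·y` has `N y ≥ θ n^(1/d)`. -/
def Good {d : ℕ} (N : (Fin d → ℝ) → ℝ) (θ : ℝ) : Prop :=
  ∃ n0 : ℕ, ∀ n : ℕ, n0 ≤ n → ∃ c : Fin d → ℤ, ∀ y : Fin d → ℤ, y ≠ 0 →
    (n : ℤ) ∣ ∑ i, c i * y i → θ * (n:ℝ)^(1/(d:ℝ)) ≤ N (fun i => (y i : ℝ))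

lemma hess_fin (M : ℕ → ℕ → ℤ) (h1 : ∀ j, M (j+1) j = -1) (h2 : ∀ i j, j + 1 < i → M i j = 0)
    (e : ℕ) (y : Fin (e+1) → ℤ) (hy : cs M (e+1) ∣ ∑ i : Fin (e+1), cs M i * y i) :
    ∃ z : Fin (e+1) → ℤ, (Matrix.of (fun i j : Fin (e+1) => M i j)).mulVec z = y := by
  obtain ⟨z, hz⟩ := hess M h1 h2 (cs M) (cs_zero M) (cs_succ M) e
    (fun i => if h : i < e + 1 then y ⟨i, h⟩ else 0) (by
      rw [Finset.sum_range]
      have : ∀ i : Fin (e+1), (if h : (i:ℕ) < e + 1 then y ⟨i, h⟩ else 0) = y i := fun i => by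
        rw [dif_pos i.2]
      simp only [this]
      exact hy)
  refine ⟨fun j => z j, ?_⟩
  funext i
  have := hz i i.2
  rw [dif_pos i.2, Finset.sum_range] at this
  simp only [Matrix.mulVec, dotProduct, Matrix.of_apply]
  exact this

lemma cast_mulVec {d : ℕ} (A : Matrix (Fin d) (Fin d) ℤ) (z : Fin d → ℤ) :
    (fun i => ((A.mulVec z i : ℤ) : ℝ)) = (A.map (fun x : ℤ => (x : ℝ))).mulVec (fun i => (z i : ℝ)) := by
  funext i
  simp [Matrix.mulVec, dotProduct]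

/-- Integer form of `[p, a; 0, I]`. -/
def BZ (k p : ℕ) (a : ℕ → ℤ) : Matrix (Fin (k+2)) (Fin (k+2)) ℤ :=
  Matrix.of (fun i j => if i = 0 then (if j = 0 then (p : ℤ) else a j) else if i = j then 1 else 0)

lemma BZ_map (k p : ℕ) (a : ℕ → ℤ) (i j : Fin (k+2)) :
    (BZ k p a).map (fun x : ℤ => (x : ℝ)) i j = Bm p a i j := by
  simp only [BZ, Bm, Matrix.map_apply, Matrix.of_apply, Fin.ext_iff, Fin.val_zero]
  split_ifs <;> simp

lemma BZ_det (k p : ℕ) (a : ℕ → ℤ) : (BZ k p a).det = p := by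
  rw [Matrix.det_of_isUpperTriangular]
  · rw [Fin.prod_univ_succ]
    simp [BZ, Fin.succ_ne_zero]
  · intro i j hij
    have h0 : i ≠ 0 := by
      rintro rfl
      exact absurd hij (by simp)
    have h1 : i ≠ j := ne_of_gt hij
    simp [BZ, h0, h1]

lemma map_det {d : ℕ} (A : Matrix (Fin d) (Fin d) ℤ) :
    (A.map (fun x : ℤ => (x : ℝ))).det = (A.det : ℝ) := by
  have := (Int.castRingHom ℝ).map_det A
  simpa [RingHom.mapMatrix_apply] using this.symm

lemma mulVec_ne_zero {d : ℕ} (A : Matrix (Fin d) (Fin d) ℤ) (hA : A.det ≠ 0) (z : Fin d → ℤ)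
    (hz : z ≠ 0) : A.mulVec z ≠ 0 := fun h => hz (Matrix.eq_zero_of_mulVec_eq_zero hA h)

theorem good_of_special {k : ℕ} {N : (Fin (k+2) → ℝ) → ℝ} {K : ℝ} (hN : IsGauge N K)
    (p : ℕ) (hp : 0 < p) (c0 : Fin (k+2) → ℤ) (h0 : c0 0 = 1) (R : ℝ) (hR : 0 < R)
    (h : ∀ y : Fin (k+2) → ℤ, y ≠ 0 → (p:ℤ) ∣ ∑ i, c0 i * y i → R ≤ N (fun i => (y i : ℝ)))
    (θ : ℝ) (hθ : θ * (p:ℝ)^(1/((k+2 : ℕ):ℝ)) < R) : Good N θ := by
  classical
  set a : ℕ → ℤ := fun j => if h : j < k + 2 then - c0 ⟨j, h⟩ else 0 with ha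
  set A : ℝ := ∑ i, |(c0 i : ℝ)| with hA
  have haA : ∀ j, |(a j : ℝ)| ≤ A := by
    intro j
    rw [ha]
    by_cases hj : j < k + 2
    · simp only [dif_pos hj]
      push_cast
      rw [abs_neg]
      exact single_le_sum (f := fun i => |(c0 i : ℝ)|) (fun i _ => abs_nonneg _) (mem_univ _)
    · simp only [dif_neg hj]
      simp only [Int.cast_zero, abs_zero]
      exact sum_nonneg (fun i _ => abs_nonneg _)
  have hpr : (0:ℝ) < p := by exact_mod_cast hp
  set B := (BZ k p a).map (fun x : ℤ => (x : ℝ)) with hB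
  have hBdet : B.det ≠ 0 := by
    rw [hB, map_det, BZ_det]; exact_mod_cast hp.ne'
  have hBR : ∀ z : Fin (k+2) → ℤ, z ≠ 0 → R ≤ N (B.mulVec (fun i => (z i : ℝ))) := by
    intro z hz
    rw [hB, ← cast_mulVec]
    apply h _ (mulVec_ne_zero _ (by rw [BZ_det]; exact_mod_cast hp.ne') z hz)
    refine ⟨z 0, ?_⟩
    have e0 : (BZ k p a).mulVec z 0 = p * z 0 + ∑ j : Fin (k+1), a (j+1) * z j.succ := by
      rw [Matrix.mulVec, dotProduct, Fin.sum_univ_succ]
      simp [BZ, Fin.succ_ne_zero]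
    have e1 : ∀ i : Fin (k+1), (BZ k p a).mulVec z i.succ = z i.succ := by
      intro i
      rw [Matrix.mulVec, dotProduct]
      simp [BZ, Fin.succ_ne_zero]
    rw [Fin.sum_univ_succ, h0, e0]
    simp only [e1]
    have e2 : ∀ j : Fin (k+1), a ((j:ℕ)+1) = - c0 j.succ := by
      intro j
      rw [ha]
      have : (j:ℕ) + 1 < k + 2 := by have := j.2; omega
      simp only [dif_pos this]
      rfl
    simp only [e2]
    simp only [neg_mul, sum_neg_distrib]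
    ring
  obtain ⟨C, hC, hpert⟩ := pert hN B hBdet
  set q : ℝ := (p:ℝ)^(1/((k+2 : ℕ):ℝ)) with hq
  have hq0 : 0 < q := Real.rpow_pos_of_pos hpr _
  set ε : ℝ := min (1/C) ((R - θ * q) / (C * R)) with hε
  have hε0 : 0 < ε := by
    rw [hε]
    refine lt_min (by positivity) (div_pos (by linarith) (by positivity))
  have hε1 : 0 ≤ 1 - C * ε := by
    have : ε ≤ 1 / C := min_le_left _ _
    have : C * ε ≤ C * (1/C) := mul_le_mul_of_nonneg_left this hC.le
    rw [mul_one_div, div_self hC.ne'] at this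
    linarith
  have hε2 : θ * q ≤ (1 - C * ε) * R := by
    have h1 : ε ≤ (R - θ * q) / (C * R) := min_le_right _ _
    rw [le_div_iff₀ (by positivity)] at h1
    linarith
  obtain ⟨L0, hL0⟩ := step_nat k p hp a A haA ε hε0
  refine ⟨p * (L0 + 1)^(k+2) , fun n hn => ?_⟩
  set lam : ℝ := ((n:ℝ)/p)^(1/((k+2 : ℕ):ℝ)) with hlam
  have hd0 : ((k+2 : ℕ):ℝ) ≠ 0 := by positivity
  have hn0 : (0:ℝ) ≤ (n:ℝ)/p := by positivity
  have hlam0 : 0 ≤ lam := Real.rpow_nonneg hn0 _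
  have hlamd : lam^(k+2) = (n:ℝ)/p := by
    rw [hlam, ← Real.rpow_natCast, ← Real.rpow_mul hn0, one_div, inv_mul_cancel₀ hd0, Real.rpow_one]
  have hlamL : ((L0:ℝ) + 1) ≤ lam := by
    have h1 : ((L0:ℝ)+1)^(k+2) ≤ lam^(k+2) := by
      rw [hlamd, le_div_iff₀ hpr]
      have : ((p * (L0 + 1)^(k+2) : ℕ) : ℝ) ≤ n := by exact_mod_cast hn
      push_cast at this
      linarith
    exact le_of_pow_le_pow_left₀ (by omega) hlam0 h1
  set L : ℕ := ⌈lam⌉₊ with hL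
  have hLle : lam ≤ L := Nat.le_ceil _
  have hLlt : (L:ℝ) < lam + 1 := Nat.ceil_lt_add_one hlam0
  have hLL0 : L0 ≤ L := by
    have : (L0:ℝ) ≤ L := by linarith
    exact_mod_cast this
  have hL1 : (0:ℝ) ≤ (L:ℝ) - 1 := by
    have : (0:ℝ) ≤ L0 := by positivity
    linarith
  obtain ⟨M, hM1, hM2, hMc, hME⟩ := hL0 L hLL0 n (by
    have : ((L:ℝ) - 1)^(k+2) ≤ lam^(k+2) := pow_le_pow_left₀ hL1 (by linarith) _
    rw [hlamd, le_div_iff₀ hpr] at this
    linarith) (by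
    have : lam^(k+2) ≤ (L:ℝ)^(k+2) := pow_le_pow_left₀ hlam0 hLle _
    rw [hlamd, div_le_iff₀ hpr] at this
    linarith)
  refine ⟨fun i => cs M i, fun y hy hdvd => ?_⟩
  obtain ⟨z, hz⟩ := hess_fin M hM1 hM2 (k+1) y (by
    have : cs M (k + 1 + 1) = n := hMc
    rw [this]; exact hdvd)
  have hz0 : z ≠ 0 := by
    rintro rfl
    rw [Matrix.mulVec_zero] at hz
    exact hy hz.symm
  have h1 := hpert L ε (by positivity) hε0.le
    ((Matrix.of (fun i j : Fin (k+2) => M i j)).map (fun x : ℤ => (x : ℝ))) (by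
      intro i j
      rw [hB, BZ_map]
      exact hME i j) (fun i => (z i : ℝ))
  have h2 := hBR z hz0
  rw [← cast_mulVec (Matrix.of (fun i j : Fin (k+2) => M i j)) z, hz] at h1
  refine le_trans ?_ h1
  have h3 : (n:ℝ)^(1/((k+2 : ℕ):ℝ)) = lam * q := by
    rw [hlam, hq, ← Real.mul_rpow hn0 hpr.le]
    congr 1
    field_simp
  rw [h3]
  calc θ * (lam * q) = lam * (θ * q) := by ring
    _ ≤ lam * ((1 - C * ε) * R) := mul_le_mul_of_nonneg_left hε2 hlam0
    _ ≤ L * ((1 - C * ε) * R) := mul_le_mul_of_nonneg_right hLle (by positivity)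
    _ ≤ L * ((1 - C * ε) * N (B.mulVec fun i => (z i : ℝ))) := by
        apply mul_le_mul_of_nonneg_left _ (by positivity)
        exact mul_le_mul_of_nonneg_left h2 hε1
    _ = L * (1 - C * ε) * N (B.mulVec fun i => (z i : ℝ)) := by ring

end Pool.Agent.CycApx
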