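import Pool.Agent.CycApx.Bounds

set_option autoImplicit false

namespace Pool.Agent.CycApx

open Finset Matrix CycLat

/-- an integer matrix whose lattice has `sx`-minimum `≥ T` bounds the critical determinant -/
lemma crit_le_of_int {d : ℕ} (M : Matrix (Fin d) (Fin d) ℤ) (hM : M.det ≠ 0) (T : ℕ) (hT : 0 < T)
    (h : ∀ z : Fin d → ℤ, z ≠ 0 → (z ᵥ* M) ∉ W d (T - 1) (T - 1)) :
    crit (sx : (Fin d → ℝ) → ℝ) ≤ |(M.det : ℝ)| / (T:ℝ)^d := by
  have hTr : (0:ℝ) < T := by exact_mod_cast hT
  have hdet : ((1 / (T:ℝ)) • M.map (fun x : ℤ => (x:ℝ))).det = (M.det : ℝ) / (T:ℝ)^d := by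
    rw [Matrix.det_smul, map_det, Fintype.card_fin, one_div, inv_pow]
    field_simp
  have h1 : |(M.det : ℝ)| / (T:ℝ)^d = |((1 / (T:ℝ)) • M.map (fun x : ℤ => (x:ℝ))).det| := by
    rw [hdet, abs_div, abs_of_pos (by positivity : (0:ℝ) < (T:ℝ)^d)]
  rw [h1]
  apply csInf_le ⟨0, by rintro x ⟨_, _, _, rfl⟩; exact abs_nonneg _⟩
  refine ⟨_, ?_, ?_, rfl⟩
  · rw [hdet]
    have : (M.det : ℝ) ≠ 0 := by exact_mod_cast hM
    positivity
  · intro z hz
    have e1 : toR z ᵥ* ((1 / (T:ℝ)) • M.map (fun x : ℤ => (x:ℝ))) = (1 / (T:ℝ)) • toR (z ᵥ* M) := by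
      funext i
      simp only [Matrix.vecMul, dotProduct, Matrix.smul_apply, Matrix.map_apply, toR, smul_eq_mul,
        Pi.smul_apply]
      push_cast
      rw [mul_sum]
      exact sum_congr rfl (fun j _ => by ring)
    rw [e1, isNorm_sx.smul, abs_of_pos (by positivity), one_div, ← div_eq_inv_mul,
      le_div_iff₀ hTr, one_mul]
    by_contra hlt
    push Not at hlt
    apply h z hz
    rw [← sx_le_iff]
    -- sx is an integer
    have e2 : ∃ m : ℤ, sx (toR (z ᵥ* M)) = (m : ℝ) := by
      refine ⟨max (∑ i, max ((z ᵥ* M) i) 0) (∑ i, max (-(z ᵥ* M) i) 0), ?_⟩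
      rw [sx]
      push_cast
      rfl
    obtain ⟨m, hm⟩ := e2
    rw [hm] at hlt ⊢
    have h2 : m < T := by exact_mod_cast hlt
    have h3 : m ≤ ((T - 1 : ℕ) : ℤ) := by omega
    exact_mod_cast h3

theorem crit_two : crit (sx : (Fin 2 → ℝ) → ℝ) = 3 / 4 := by
  apply le_antisymm
  · have h := crit_le_of_int (d := 2) !![1, 1; 0, 3] (by simp [Matrix.det_fin_two]) 2 (by norm_num) (by
      intro z hz hW
      rw [mem_W] at hW
      simp only [Fin.sum_univ_two, Matrix.vecMul, dotProduct, Matrix.of_apply, Matrix.cons_val',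
        Matrix.cons_val_zero, Matrix.cons_val_one, Matrix.cons_val_fin_one] at hW
      obtain ⟨h1, h2⟩ := hW
      apply hz
      have a1 := le_max_left (z 0 * 1 + z 1 * 0) 0
      have a2 := le_max_right (z 0 * 1 + z 1 * 0) 0
      have a3 := le_max_left (z 0 * 1 + z 1 * 3) 0
      have a4 := le_max_right (z 0 * 1 + z 1 * 3) 0
      have b1 := le_max_left (-(z 0 * 1 + z 1 * 0)) 0
      have b2 := le_max_right (-(z 0 * 1 + z 1 * 0)) 0
      have b3 := le_max_left (-(z 0 * 1 + z 1 * 3)) 0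
      have b4 := le_max_right (-(z 0 * 1 + z 1 * 3)) 0
      have : z 0 = 0 ∧ z 1 = 0 := by
        push_cast at h1 h2
        constructor <;> omega
      funext i
      fin_cases i
      · exact this.1
      · exact this.2)
    refine h.trans (le_of_eq ?_)
    simp [Matrix.det_fin_two]
    norm_num
  · have h := crit_ge 0
    refine le_trans (le_of_eq ?_) h
    norm_num [Nat.choose, Nat.factorial]

theorem crit_three_le : crit (sx : (Fin 3 → ℝ) → ℝ) ≤ 49 / 108 := by
  have h := crit_le_of_int (d := 3) !![1, 1, 4; 0, 7, 0; 0, 0, 14] (by simp [Matrix.det_fin_three])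
    6 (by norm_num) (by
      intro z hz hW
      rw [mem_W] at hW
      simp only [Fin.sum_univ_three, Matrix.vecMul, dotProduct, Matrix.of_apply, Matrix.cons_val',
        Matrix.cons_val_zero, Matrix.cons_val_one, Matrix.cons_val_fin_one, Matrix.cons_val] at hW
      obtain ⟨h1, h2⟩ := hW
      have c1 : z 0 * 1 + z 1 * 0 + z 2 * 0 = z 0 := by ring
      have c2 : z 0 * 1 + z 1 * 7 + z 2 * 0 = z 0 + 7 * z 1 := by ring
      have c3 : z 0 * 4 + z 1 * 0 + z 2 * 14 = 4 * z 0 + 14 * z 2 := by ring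
      rw [c1, c2, c3] at h1 h2
      push_cast at h1 h2
      have a1 := le_max_left (z 0) 0
      have a2 := le_max_right (z 0) 0
      have a3 := le_max_left (z 0 + 7 * z 1) 0
      have a4 := le_max_right (z 0 + 7 * z 1) 0
      have a5 := le_max_left (4 * z 0 + 14 * z 2) 0
      have a6 := le_max_right (4 * z 0 + 14 * z 2) 0
      have b1 := le_max_left (-z 0) 0
      have b2 := le_max_right (-z 0) 0
      have b3 := le_max_left (-(z 0 + 7 * z 1)) 0
      have b4 := le_max_right (-(z 0 + 7 * z 1)) 0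
      have b5 := le_max_left (-(4 * z 0 + 14 * z 2)) 0
      have b6 := le_max_right (-(4 * z 0 + 14 * z 2)) 0
      apply hz
      have k0 : -5 ≤ z 0 ∧ z 0 ≤ 5 := by constructor <;> omega
      have k1 : -1 ≤ z 1 ∧ z 1 ≤ 1 := by constructor <;> omega
      have k2 : -1 ≤ z 2 ∧ z 2 ≤ 1 := by constructor <;> omega
      have : z 0 = 0 ∧ z 1 = 0 ∧ z 2 = 0 := by
        obtain ⟨k01, k02⟩ := k0
        obtain ⟨k11, k12⟩ := k1
        obtain ⟨k21, k22⟩ := k2
        generalize z 0 = x at *
        generalize z 1 = y at *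
        generalize z 2 = w at *
        interval_cases x <;> interval_cases y <;> interval_cases w <;> first
          | omega
          | (exfalso; revert h1 h2; decide)
      funext i
      fin_cases i
      · exact this.1
      · exact this.2.1
      · exact this.2.2)
  refine h.trans (le_of_eq ?_)
  simp [Matrix.det_fin_three]
  norm_num

end Pool.Agent.CycApx
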