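import Pool.Agent.CycApx.Hess

set_option autoImplicit false

namespace Pool.Agent.CycApx

open Finset

/-- The Horner sequence of a Hessenberg matrix. -/
def cs (M : ℕ → ℕ → ℤ) : ℕ → ℤ
  | 0 => 1
  | (j+1) => ∑ i : Fin (j+1), cs M i * M i j
decreasing_by exact i.2

lemma cs_zero (M : ℕ → ℕ → ℤ) : cs M 0 = 1 := by
  rw [cs]

lemma cs_succ (M : ℕ → ℕ → ℤ) (j : ℕ) : cs M (j+1) = ∑ i ∈ range (j+1), cs M i * M i j := by
  rw [cs, Finset.sum_range]

lemma ev (α β δ : ℝ) (hα : 0 ≤ α) (hβ : 0 ≤ β) (hδ : 0 < δ) :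
    ∃ L0 : ℕ, ∀ L : ℕ, L0 ≤ L → α + β * √L ≤ δ * L := by
  refine ⟨⌈((α + β) / δ)^2⌉₊ + 1, fun L hL => ?_⟩
  have h1 : (((α + β) / δ)^2 : ℝ) ≤ L := by
    have := Nat.le_ceil (((α + β) / δ)^2)
    have h2 : ((⌈((α + β) / δ)^2⌉₊ + 1 : ℕ) : ℝ) ≤ L := by exact_mod_cast hL
    push_cast at h2
    linarith
  have h2 : (1:ℝ) ≤ L := by
    have : 1 ≤ L := by omega
    exact_mod_cast this
  have h3 : (α + β) / δ ≤ √L := Real.le_sqrt_of_sq_le h1
  have h4 : 1 ≤ √(L:ℝ) := Real.one_le_sqrt.2 h2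
  have h5 : α + β ≤ δ * √L := by
    rw [div_le_iff₀ hδ] at h3; linarith
  have h6 : √(L:ℝ) * √L = L := Real.mul_self_sqrt (by positivity)
  calc α + β * √L ≤ (α + β) * √L := by nlinarith
    _ ≤ δ * √L * √L := by apply mul_le_mul_of_nonneg_right h5; positivity
    _ = δ * L := by rw [mul_assoc, h6]

lemma choose_i (p ρ : ℕ) (hp : 0 < p) (V : ℝ) (hV : 0 ≤ V) :
    ∃ i : ℕ, V ≤ ρ * i + p * i^2 ∧ ((ρ:ℝ) * i + p * i^2 ≤ V + ρ + 2 * p * i) ∧
      (i:ℝ) ≤ 1 + √V := by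
  have hpr : (1:ℝ) ≤ p := by exact_mod_cast hp
  have hρr : (0:ℝ) ≤ ρ := by positivity
  have hex : ∃ i : ℕ, V ≤ ρ * i + p * i^2 := by
    refine ⟨⌈V⌉₊, ?_⟩
    have h1 : V ≤ (⌈V⌉₊ : ℝ) := Nat.le_ceil V
    have h2 : (⌈V⌉₊ : ℝ) ≤ (⌈V⌉₊ : ℝ)^2 := by
      rcases Nat.eq_zero_or_pos ⌈V⌉₊ with h | h
      · simp [h]
      · have : (1:ℝ) ≤ (⌈V⌉₊ : ℝ) := by exact_mod_cast h
        nlinarith
    have h3 : (0:ℝ) ≤ ρ * (⌈V⌉₊ : ℝ) := by positivity
    have h4 : (0:ℝ) ≤ (⌈V⌉₊ : ℝ)^2 := by positivity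
    nlinarith
  classical
  have hspec := Nat.find_spec hex
  have hmin := fun m => Nat.find_min hex (m := m)
  set i := Nat.find hex with hi
  refine ⟨i, hspec, ?_, ?_⟩
  · rcases Nat.eq_zero_or_pos i with h | h
    · rw [h]; push_cast; nlinarith
    · obtain ⟨i', hi'⟩ : ∃ i', i = i' + 1 := ⟨i - 1, by omega⟩
      have := hmin i' (by omega)
      push Not at this
      rw [hi']
      push_cast
      nlinarith
  · rcases Nat.eq_zero_or_pos i with h | h
    · rw [h]; push_cast; positivity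
    · obtain ⟨i', hi'⟩ : ∃ i', i = i' + 1 := ⟨i - 1, by omega⟩
      have := hmin i' (by omega)
      push Not at this
      have h7 : (0:ℝ) ≤ ρ * i' := by positivity
      have h8 : (0:ℝ) ≤ (i':ℝ)^2 := by positivity
      have h9 : (i':ℝ) ≤ √V := Real.le_sqrt_of_sq_le (by nlinarith)
      rw [hi']
      push_cast
      linarith

/-- The target matrix `[p, a; 0, I]`. -/
def Bm (p : ℕ) (a : ℕ → ℤ) (i j : ℕ) : ℝ :=
  if i = 0 then (if j = 0 then (p : ℝ) else a j) else if i = j then 1 else 0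

lemma step_nat (k p : ℕ) (hp : 0 < p) (a : ℕ → ℤ) (A : ℝ) (hA : ∀ j, |(a j : ℝ)| ≤ A)
    (ε : ℝ) (hε : 0 < ε) :
    ∃ L0 : ℕ, ∀ L : ℕ, L0 ≤ L → ∀ n : ℕ, (p:ℝ) * ((L:ℝ) - 1)^(k+2) ≤ n →
      (n:ℝ) ≤ p * (L:ℝ)^(k+2) →
      ∃ M : ℕ → ℕ → ℤ, (∀ j, M (j+1) j = -1) ∧ (∀ i j, j + 1 < i → M i j = 0) ∧
        cs M (k+2) = n ∧ ∀ i j, |(M i j : ℝ) - L * Bm p a i j| ≤ ε * L := by
  have hA0 : 0 ≤ A := (abs_nonneg _).trans (hA 0)
  have hpr : (1:ℝ) ≤ p := by exact_mod_cast hp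
  set ρ0 : ℕ := ⌈A⌉₊ + ⌈4 * k * p / ε⌉₊ + ⌈1 / ε⌉₊ + 1 with hρ0
  have hρA : A ≤ ρ0 := by
    have := Nat.le_ceil A
    rw [hρ0]; push_cast
    have h1 : (0:ℝ) ≤ (⌈4 * k * p / ε⌉₊ : ℝ) := by positivity
    have h2 : (0:ℝ) ≤ (⌈1 / ε⌉₊ : ℝ) := by positivity
    linarith
  have hρk : 4 * k * p / ε ≤ ρ0 := by
    have := Nat.le_ceil (4 * (k:ℝ) * p / ε)
    rw [hρ0]; push_cast
    have h1 : (0:ℝ) ≤ (⌈A⌉₊ : ℝ) := by positivity
    have h2 : (0:ℝ) ≤ (⌈1 / ε⌉₊ : ℝ) := by positivity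
    linarith
  have hρe : 1 / ε ≤ ρ0 := by
    have := Nat.le_ceil (1 / ε)
    rw [hρ0]; push_cast
    have h1 : (0:ℝ) ≤ (⌈A⌉₊ : ℝ) := by positivity
    have h2 : (0:ℝ) ≤ (⌈4 * (k:ℝ) * p / ε⌉₊ : ℝ) := by positivity
    linarith
  have hρ1 : 1 ≤ ρ0 := by omega
  have hρ1r : (1:ℝ) ≤ ρ0 := by exact_mod_cast hρ1
  set C1 : ℝ := p * (k + 2) + ρ0 + A with hC1
  have hC10 : 0 ≤ C1 := by positivity
  obtain ⟨L0, hL0⟩ := ev ((ρ0 + 2 * p) + k * (1 + A) + 1) ((ρ0 + 2 * p) * √C1) (ε / 4)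
    (by positivity) (by positivity) (by positivity)
  refine ⟨L0 + 1, fun L hL n hn1 hn2 => ?_⟩
  have hL1 : 1 ≤ L := by omega
  have hLr : (1:ℝ) ≤ L := by exact_mod_cast hL1
  have hLpos : (0:ℝ) < L := by linarith
  have hbig := hL0 L (by omega)
  -- the real number V
  set V : ℝ := p * L^2 + ρ0 * L - (n / (L:ℝ)^k - a 1 * L) with hV
  have hLk : (0:ℝ) < (L:ℝ)^k := by positivity
  have hq1 : (n:ℝ) / (L:ℝ)^k ≤ p * L^2 := by
    rw [div_le_iff₀ hLk]
    calc (n:ℝ) ≤ p * (L:ℝ)^(k+2) := hn2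
      _ = p * (L:ℝ)^2 * (L:ℝ)^k := by ring
  have hq2 : (p:ℝ) * L^2 - p * (k+2) * L ≤ n / (L:ℝ)^k := by
    rw [le_div_iff₀ hLk]
    refine le_trans ?_ hn1
    have hb := one_add_mul_le_pow (a := -(1/(L:ℝ))) (by
      have : 1 / (L:ℝ) ≤ 1 := by rw [div_le_one hLpos]; exact hLr
      linarith) (k+2)
    have h2 : ((L:ℝ) - 1)^(k+2) = (1 + -(1/(L:ℝ)))^(k+2) * (L:ℝ)^(k+2) := by
      rw [← mul_pow]; congr 1; field_simp; ring
    rw [h2]
    have h3 : ((p:ℝ) * L^2 - p * (k+2) * L) * (L:ℝ)^k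
        = p * ((1 + ((k + 2 : ℕ) : ℝ) * (-(1/(L:ℝ)))) * (L:ℝ)^(k+2)) := by
      push_cast; field_simp; ring
    rw [h3]
    apply mul_le_mul_of_nonneg_left _ (by linarith)
    exact mul_le_mul_of_nonneg_right hb (by positivity)
  have ha1 := abs_le.1 (hA 1)
  have hV0 : 0 ≤ V := by
    rw [hV]; nlinarith
  have hV1 : V ≤ C1 * L := by
    rw [hV, hC1]; nlinarith
  obtain ⟨i, hi1, hi2, hi3⟩ := choose_i p ρ0 hp V hV0
  have hi4 : (i:ℝ) ≤ 1 + √C1 * √L := by
    refine hi3.trans ?_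
    have : √V ≤ √(C1 * L) := Real.sqrt_le_sqrt hV1
    rw [Real.sqrt_mul hC10] at this
    linarith
  have hi0 : (0:ℝ) ≤ i := by positivity
  have hbig2 : ((ρ0:ℝ) + 2 * p) * i + k * (1 + A) + 1 ≤ ε / 4 * L := by
    refine le_trans ?_ hbig
    have : ((ρ0:ℝ) + 2 * p) * i ≤ (ρ0 + 2 * p) * (1 + √C1 * √L) :=
      mul_le_mul_of_nonneg_left hi4 (by positivity)
    linarith
  have hkA : 0 ≤ (k:ℝ) * (1 + A) := by positivity
  have hρi : 0 ≤ ((ρ0:ℝ) + 2 * p) * i := by positivity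
  have hbig3 : ((ρ0:ℝ) + 2 * p) + k * (1 + A) + 1 ≤ ε / 4 * L := by
    refine le_trans ?_ hbig
    have : 0 ≤ ((ρ0:ℝ) + 2 * p) * √C1 * √L := by positivity
    linarith
  have hεL : 0 < ε * L := by positivity
  -- ρ
  set ρ : ℤ := ρ0 + p * i with hρ
  have hρr : (ρ:ℝ) = ρ0 + p * i := by rw [hρ]; push_cast; ring
  have hρpos : 0 < ρ := by
    have : (0:ℤ) < ρ0 := by exact_mod_cast hρ1
    have : (0:ℤ) ≤ p * i := by positivity
    omega
  have hρ0ρ : (ρ0:ℝ) ≤ ρ := by rw [hρr]; nlinarith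
  obtain ⟨C, m, r, hCn, hrec, hr, hm, hb⟩ := horner (L:ℤ) ρ p (by exact_mod_cast hL1) hρpos
    (by positivity) a A hA k n
  push_cast at hb
  set r1 : ℤ := C 2 - a 1 * L - (p * L + ρ) * (L - i) with hr1
  let M : ℕ → ℕ → ℤ := fun i' j => if i' = j + 1 then -1 else
    if i' = 0 then (if j = 0 then p * L + ρ else if j = 1 then a 1 * L + r1 else a j * L + r j)
    else if i' = 1 then (if j = 1 then (L:ℤ) - i else m j)
    else if i' = j then L else 0
  have hpi : (p:ℝ) * i ≤ (ρ0 + 2 * p) * i := by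
    apply mul_le_mul_of_nonneg_right _ hi0; linarith
  have hii : (i:ℝ) ≤ (ρ0 + 2 * p) * i := by
    have : (1:ℝ) * i ≤ (ρ0 + 2 * p) * i := by
      apply mul_le_mul_of_nonneg_right _ hi0; linarith
    linarith
  have hp0 : (0:ℝ) ≤ 2 * p := by linarith
  have hρle : (ρ:ℝ) ≤ ε * L := by
    rw [hρr]; linarith
  have hme : ∀ j, |(m j : ℝ)| ≤ ε * L := by
    intro j
    obtain ⟨h0, h1⟩ := hm j
    have h0r : (0:ℝ) ≤ m j := by exact_mod_cast h0
    have h1r : (m j : ℝ) * ρ ≤ L := by exact_mod_cast h1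
    rw [abs_of_nonneg h0r]
    have h2 : (m j : ℝ) * (1 / ε) ≤ L :=
      (mul_le_mul_of_nonneg_left (hρe.trans hρ0ρ) h0r).trans h1r
    rw [mul_one_div, div_le_iff₀ hε] at h2
    linarith
  have hre : ∀ j, |(r j : ℝ)| ≤ ε * L := by
    intro j
    obtain ⟨h0, h1⟩ := hr j
    have h0r : (0:ℝ) ≤ r j := by exact_mod_cast h0
    have h1r : (r j : ℝ) < ρ := by exact_mod_cast h1
    rw [abs_of_nonneg h0r]
    linarith
  have hr1e : |(r1 : ℝ)| ≤ ε * L := by
    have e1 : (r1:ℝ) = ((C 2 : ℝ) - n / (L:ℝ)^k) + (ρ0 * i + p * i^2 - V) := by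
      rw [hr1, hV]; push_cast; rw [hρr]; ring
    have e2 : (k:ℝ) * (1 + A + p * L / ρ) ≤ ε / 2 * L := by
      have h1 : (p:ℝ) * L / ρ ≤ p * L / ρ0 := by
        apply div_le_div_of_nonneg_left (by positivity) (by linarith) hρ0ρ
      have h2 : (k:ℝ) * (p * L / ρ0) ≤ ε / 4 * L := by
        rw [← mul_div_assoc, div_le_iff₀ (by linarith)]
        rw [div_le_iff₀ hε] at hρk
        nlinarith
      have h3 : (k:ℝ) * (p * L / ρ) ≤ k * (p * L / ρ0) :=
        mul_le_mul_of_nonneg_left h1 (by positivity)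
      have h4 : (k:ℝ) * (1 + A + p * L / ρ) = k * (1 + A) + k * (p * L / ρ) := by ring
      rw [h4]
      have h5 : 0 ≤ ((ρ0:ℝ) + 2 * p) := by positivity
      linarith
    have e3 := hb.trans e2
    rw [e1]
    rw [abs_le] at e3 ⊢
    have e4 : 2 * (p:ℝ) * i ≤ (ρ0 + 2 * p) * i := by
      apply mul_le_mul_of_nonneg_right _ hi0; linarith
    have e5 : (ρ0:ℝ) + 2 * p * i ≤ ε / 2 * L := by
      have : 0 ≤ 2 * (p:ℝ) := by positivity
      linarith
    constructor
    · linarith [e3.1]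
    · linarith [e3.2]
  refine ⟨M, fun j => ?_, fun i' j h => ?_, ?_, ?_⟩
  · simp [M]
  · simp only [M]
    rw [if_neg (by omega), if_neg (by omega), if_neg (by omega), if_neg (by omega)]
  · have c0 : cs M 0 = 1 := cs_zero M
    have c1 : cs M 1 = p * L + ρ := by
      rw [cs_succ]; simp [c0, M]
    have c2 : cs M 2 = C 2 := by
      rw [cs_succ]
      rw [sum_range_succ, sum_range_one, c0, c1]
      simp only [M]
      simp
      rw [hr1]; ring
    have cj : ∀ j, 2 ≤ j → j ≤ k + 2 → cs M j = C j := by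
      intro j
      induction j with
      | zero => intro h; omega
      | succ j ih =>
        intro h1 h2
        rcases Nat.lt_or_ge j 2 with h | h
        · have : j = 1 := by omega
          subst this
          exact c2
        · have ihj := ih h (by omega)
          rw [cs_succ, sum_range_succ, ihj]
          obtain ⟨j', rfl⟩ : ∃ j', j = j' + 2 := ⟨j - 2, by omega⟩
          rw [sum_range_succ', sum_range_succ', c0, c1]
          have hz : ∑ x ∈ range j', cs M (x + 1 + 1) * M (x + 1 + 1) (j' + 2) = 0 := by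
            refine sum_eq_zero (fun x hx => ?_)
            have hx' := mem_range.1 hx
            have : M (x + 1 + 1) (j' + 2) = 0 := by
              simp only [M]
              rw [if_neg (by omega), if_neg (by omega), if_neg (by omega), if_neg (by omega)]
            rw [this, mul_zero]
          rw [hz]
          have m1 : M (0 + 1) (j' + 2) = m (j' + 2) := by
            simp [M]
          have m0 : M 0 (j' + 2) = a (j'+2) * L + r (j'+2) := by
            simp [M]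
          have mj : M (j' + 2) (j' + 2) = L := by
            simp [M]
          rw [m1, m0, mj, hrec (j'+2) h (by omega)]
          ring
    rw [cj (k+2) (by omega) le_rfl, hCn]
  · intro i' j
    have h1eps : 1 ≤ ε * L := by linarith
    have hieps : (i:ℝ) ≤ ε * L := by linarith
    simp only [M, Bm]
    by_cases h1 : i' = j + 1
    · have h0 : i' ≠ 0 := by omega
      have h2 : i' ≠ j := by omega
      simp only [h1, if_true]
      rw [if_neg (by omega : ¬ (j + 1 = 0)), if_neg (by omega : ¬ (j + 1 = j))]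
      push_cast
      simpa using h1eps
    · rw [if_neg h1]
      by_cases h2 : i' = 0
      · rw [if_pos h2, if_pos h2]
        by_cases h3 : j = 0
        · rw [if_pos h3, if_pos h3]
          push_cast
          have : (p:ℝ) * L + ρ - L * p = ρ := by ring
          rw [this, abs_of_nonneg (by linarith)]
          exact hρle
        · rw [if_neg h3, if_neg h3]
          by_cases h4 : j = 1
          · rw [if_pos h4, h4]
            push_cast
            have : (a 1 : ℝ) * L + r1 - L * a 1 = r1 := by ring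
            rw [this]; exact hr1e
          · rw [if_neg h4]
            push_cast
            have : (a j : ℝ) * L + r j - L * a j = r j := by ring
            rw [this]; exact hre j
      · rw [if_neg h2, if_neg h2]
        by_cases h3 : i' = 1
        · rw [if_pos h3]
          by_cases h4 : j = 1
          · rw [if_pos h4, if_pos (by omega)]
            push_cast
            have : (L:ℝ) - i - L * 1 = -i := by ring
            rw [this, abs_neg, abs_of_nonneg hi0]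
            exact hieps
          · rw [if_neg h4, if_neg (by omega)]
            simpa using hme j
        · rw [if_neg h3]
          by_cases h4 : i' = j
          · rw [if_pos h4, if_pos h4]
            simpa using hεL.le
          · rw [if_neg h4, if_neg h4]
            simpa using hεL.le

end Pool.Agent.CycApx
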