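import Pool.Agent.CycApx.Special
import Pool.Agent.CycApx.HNF

set_option autoImplicit false

namespace Pool.Agent.CycApx

open Finset Matrix Filter Topology

/-- `t H` with `-1` on the subdiagonal -/
def Mt (H : ℕ → ℕ → ℤ) (t : ℕ) (i j : ℕ) : ℤ := if i = j + 1 then -1 else t * H i j

lemma tendsto_cs (H : ℕ → ℕ → ℤ) : ∀ j : ℕ,
    Tendsto (fun t : ℕ => (cs (Mt H t) j : ℝ) / (t:ℝ)^j) atTop (𝓝 (∏ i ∈ range j, (H i i : ℝ))) := by
  intro j
  induction j using Nat.strong_induction_on with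
  | _ j ih =>
    rcases j with _ | j
    · simp [cs_zero]
    · have h1 : Tendsto (fun t : ℕ => ∑ i ∈ range (j+1),
          ((cs (Mt H t) i : ℝ) / (t:ℝ)^i) * (H i j : ℝ) * (1 / (t:ℝ))^(j - i)) atTop
          (𝓝 (∑ i ∈ range (j+1), (∏ l ∈ range i, (H l l : ℝ)) * (H i j : ℝ) * (0:ℝ)^(j - i))) := by
        refine tendsto_finset_sum _ (fun i hi => ?_)
        exact ((ih i (by have := mem_range.1 hi; omega)).mul_const _).mul
          ((tendsto_one_div_atTop_nhds_zero_nat).pow _)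
      have h2 : ∑ i ∈ range (j+1), (∏ l ∈ range i, (H l l : ℝ)) * (H i j : ℝ) * (0:ℝ)^(j - i)
          = ∏ i ∈ range (j+1), (H i i : ℝ) := by
        rw [sum_range_succ, prod_range_succ, sum_eq_zero, Nat.sub_self, pow_zero, zero_add, mul_one]
        intro i hi
        have := mem_range.1 hi
        rw [zero_pow (by omega), mul_zero]
      rw [h2] at h1
      refine h1.congr' ?_
      filter_upwards [eventually_gt_atTop 0] with t ht
      have htr : (t:ℝ) ≠ 0 := by positivity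
      rw [cs_succ]
      push_cast
      rw [sum_div]
      refine sum_congr rfl (fun i hi => ?_)
      have hij := mem_range.1 hi
      have e1 : Mt H t i j = t * H i j := by
        rw [Mt, if_neg (by omega)]
      rw [e1]
      push_cast
      have e2 : (t:ℝ)^(j+1) = (t:ℝ)^i * (t:ℝ)^(j-i) * t := by
        rw [← pow_add, show i + (j - i) = j by omega, pow_succ]
      rw [e2, one_div, inv_pow]
      field_simp

theorem good_of_tri {k : ℕ} {N : (Fin (k+2) → ℝ) → ℝ} {K : ℝ} (hN : IsGauge N K)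
    (H : Matrix (Fin (k+2)) (Fin (k+2)) ℤ) (hH0 : ∀ i j, j < i → H i j = 0)
    (hH1 : ∀ i, 0 < H i i) (R : ℝ) (hR : 0 < R)
    (h : ∀ z : Fin (k+2) → ℤ, z ≠ 0 →
      R ≤ N ((H.map (fun x : ℤ => (x : ℝ))).mulVec (fun i => (z i : ℝ))))
    (θ : ℝ) (hθ : θ * ((∏ i, H i i : ℤ) : ℝ)^(1/((k+2 : ℕ):ℝ)) < R) : Good N θ := by
  classical
  set H' : ℕ → ℕ → ℤ := fun i j => if h : i < k + 2 ∧ j < k + 2 then H ⟨i, h.1⟩ ⟨j, h.2⟩ else 0
    with hH'
  have hH'v : ∀ i j : Fin (k+2), H' i j = H i j := by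
    intro i j
    rw [hH']
    simp
  have hprod : ∏ i ∈ range (k+2), (H' i i : ℝ) = ((∏ i, H i i : ℤ) : ℝ) := by
    rw [Finset.prod_range]
    push_cast
    exact prod_congr rfl (fun i _ => by rw [hH'v])
  have hPpos : (0:ℝ) < ((∏ i, H i i : ℤ) : ℝ) := by
    have : 0 < ∏ i, H i i := prod_pos (fun i _ => hH1 i)
    exact_mod_cast this
  have hdet : (H.map (fun x : ℤ => (x : ℝ))).det ≠ 0 := by
    rw [map_det, Matrix.det_of_isUpperTriangular (fun i j hij => hH0 i j hij)]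
    exact hPpos.ne'
  obtain ⟨C, hC, hpert⟩ := pert hN _ hdet
  have hlim := tendsto_cs H' (k+2)
  rw [hprod] at hlim
  have hlim2 : Tendsto (fun t : ℕ => θ * ((cs (Mt H' t) (k+2) : ℝ) / (t:ℝ)^(k+2))^(1/((k+2 : ℕ):ℝ)))
      atTop (𝓝 (θ * ((∏ i, H i i : ℤ) : ℝ)^(1/((k+2 : ℕ):ℝ)))) :=
    (hlim.rpow_const (Or.inl hPpos.ne')).const_mul θ
  have hlim3 : Tendsto (fun t : ℕ => (1 - C * (1 / (t:ℝ))) * R) atTop (𝓝 R) := by
    have := (((tendsto_one_div_atTop_nhds_zero_nat (𝕜 := ℝ)).const_mul C).const_sub 1).mul_const R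
    simpa using this
  have hev1 := hlim2.eventually_lt hlim3 hθ
  have hev2 := hlim.eventually (lt_mem_nhds hPpos)
  have hev3 := (tendsto_const_nhds (x := (0:ℝ))).eventually_lt hlim3 hR
  obtain ⟨t, ht1, ht2, ht3, ht4⟩ := (hev1.and (hev2.and (hev3.and (eventually_gt_atTop 0)))).exists
  have htr : (0:ℝ) < t := by exact_mod_cast ht4
  have hp : 0 < cs (Mt H' t) (k+2) := by
    have h1 : (0:ℝ) < (t:ℝ)^(k+2) := by positivity
    have h2 : (0:ℝ) < cs (Mt H' t) (k+2) := by
      by_contra hn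
      push Not at hn
      exact absurd ht2 (not_lt.2 (div_nonpos_of_nonpos_of_nonneg hn h1.le))
    exact_mod_cast h2
  set p : ℕ := (cs (Mt H' t) (k+2)).toNat with hpdef
  have hpcast : (p : ℤ) = cs (Mt H' t) (k+2) := Int.toNat_of_nonneg hp.le
  have hpcastr : (p : ℝ) = (cs (Mt H' t) (k+2) : ℝ) := by exact_mod_cast congrArg (fun x : ℤ => (x : ℝ)) hpcast
  have hppos : 0 < p := by
    have : (0:ℤ) < p := by rw [hpcast]; exact hp
    exact_mod_cast this
  refine good_of_special hN p hppos (fun i => cs (Mt H' t) i) (by simp [cs_zero])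
    (t * ((1 - C * (1 / (t:ℝ))) * R)) (by positivity) ?_ θ ?_
  · intro y hy hdvd
    obtain ⟨z, hz⟩ := hess_fin (Mt H' t) (fun j => by simp [Mt]) (fun i j hij => by
      rw [Mt, if_neg (by omega)]
      have : H' i j = 0 := by
        rw [hH']
        by_cases hb : i < k + 2 ∧ j < k + 2
        · simp only [dif_pos hb]
          exact hH0 _ _ (by simp only [Fin.mk_lt_mk]; omega)
        · simp only [dif_neg hb]
      rw [this, mul_zero]) (k+1) y (by
        have : cs (Mt H' t) (k + 1 + 1) = (p : ℤ) := hpcast.symm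
        rw [this]; exact hdvd)
    have hz0 : z ≠ 0 := by
      rintro rfl
      rw [Matrix.mulVec_zero] at hz
      exact hy hz.symm
    have h1 := hpert t (1 / (t:ℝ)) htr.le (by positivity)
      ((Matrix.of (fun i j : Fin (k+2) => Mt H' t i j)).map (fun x : ℤ => (x : ℝ))) (by
        intro i j
        rw [Matrix.map_apply, Matrix.map_apply, Matrix.of_apply, Mt, one_div,
          inv_mul_cancel₀ htr.ne']
        by_cases hij : (i:ℕ) = j + 1
        · rw [if_pos hij, hH0 i j (by rw [Fin.lt_def]; omega)]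
          simp
        · rw [if_neg hij, hH'v]
          simp) (fun i => (z i : ℝ))
    rw [← cast_mulVec (Matrix.of (fun i j : Fin (k+2) => Mt H' t i j)) z, hz] at h1
    refine le_trans ?_ h1
    have h2 := h z hz0
    have h4 : 0 ≤ 1 - C * (1 / (t:ℝ)) := by
      by_contra hn
      push Not at hn
      have := mul_neg_of_neg_of_pos hn hR
      linarith
    calc (t:ℝ) * ((1 - C * (1 / (t:ℝ))) * R)
        ≤ t * ((1 - C * (1 / (t:ℝ))) * N ((H.map (fun x : ℤ => (x : ℝ))).mulVec (fun i => (z i : ℝ)))) := by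
          apply mul_le_mul_of_nonneg_left _ htr.le
          exact mul_le_mul_of_nonneg_left h2 h4
      _ = _ := by ring
  · have e1 : (p:ℝ)^(1/((k+2 : ℕ):ℝ))
        = t * ((cs (Mt H' t) (k+2) : ℝ) / (t:ℝ)^(k+2))^(1/((k+2 : ℕ):ℝ)) := by
      have h5 : (t:ℝ) = ((t:ℝ)^(k+2))^(1/((k+2 : ℕ):ℝ)) := by
        rw [one_div, Real.pow_rpow_inv_natCast htr.le (by omega)]
      rw [← hpcastr]
      conv_rhs => rw [h5]
      rw [← Real.mul_rpow (by positivity) (by positivity), ← h5]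
      congr 1
      field_simp
    rw [e1]
    calc θ * (t * ((cs (Mt H' t) (k+2) : ℝ) / (t:ℝ)^(k+2))^(1/((k+2 : ℕ):ℝ)))
        = t * (θ * ((cs (Mt H' t) (k+2) : ℝ) / (t:ℝ)^(k+2))^(1/((k+2 : ℕ):ℝ))) := by ring
      _ < t * ((1 - C * (1 / (t:ℝ))) * R) := by
          exact mul_lt_mul_of_pos_left ht1 htr

end Pool.Agent.CycApx
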